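import Pool.Agent.H55.MG.Stm

/-!
# Project MG: stub ACT (transport of the local ideals)
-/

set_option autoImplicit false

open MvPolynomial Filter Topology Height
open scoped LinearAlgebra.Projectivization

namespace Pool.Agent.H55.MG.ACT

open Pool.Agent.H55.MZ (Poly NoZero Homog Pt Par eval_smul_hom eval_bind comp_zero eval_smul_sum)

section

variable {K : Type} [Field K] {n : ℕ} {I : Ideal (Poly K n)} {L : Type} [NormedField L] {σ : K →+* L}

lemma eval_map_smul (σ : K →+* L) {g : Poly K n} {s : ℕ} (hg : g.IsHomogeneous s) (c : L) (w : Fin (n + 1) → K) :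
    eval (fun i => c * σ (w i)) (map σ g) = c ^ s * σ (eval w g) := by
  have h1 := eval_smul_hom (K := L) (hg.map σ) c (fun i => σ (w i))
  have h2 : (c • fun i => σ (w i)) = fun i => c * σ (w i) := by funext i; simp
  rw [h2] at h1
  rw [h1, eval_map]
  congr 1
  exact (eval₂_comp σ w g).symm

lemma exists_low {ι : Type} [Finite ι] (E : ι → ℝ) (hE : ∀ j, 0 < E j) : ∃ ε : ℝ, 0 < ε ∧ ∀ j, ε ≤ E j := by
  rcases isEmpty_or_nonempty ι with h | h
  · exact ⟨1, one_pos, fun j => (h.false j).elim⟩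
  · obtain ⟨j, hj⟩ := Finite.exists_min E
    exact ⟨E j, hE j, hj⟩

/-- continuity -/
lemma near_map {φ : RatPt I → RatPt I} (hφ : RegK I φ) (p : RatPt I) {ε : ℝ} (hε : 0 < ε) :
    ∃ δ : ℝ, 0 < δ ∧ ∀ w : RatPt I, Nr σ (vec w) (fun i => σ (vec p i)) δ →
      Nr σ (vec (φ w)) (fun i => σ (vec (φ p) i)) ε := by
  obtain ⟨k, e, A, hA1, hA2, hA3⟩ := hφ
  obtain ⟨α, i0, hα⟩ := hA3 p
  obtain ⟨b, hb⟩ := hA2 p α
  have hb0 : b ≠ 0 := by
    rintro rfl
    exact hα (by rw [hb i0, zero_mul])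
  have hv0 : vec (φ p) i0 ≠ 0 := by
    intro h
    exact hα (by rw [hb i0, h, mul_zero])
  have hb' : σ b ≠ 0 := (map_ne_zero σ).2 hb0
  have hv' : σ (vec (φ p) i0) ≠ 0 := (map_ne_zero σ).2 hv0
  have pb : 0 < ‖σ b‖ := norm_pos_iff.2 hb'
  have pv : 0 < ‖σ (vec (φ p) i0)‖ := norm_pos_iff.2 hv'
  set η : ℝ := min (ε * ‖σ b‖) (‖σ b‖ * ‖σ (vec (φ p) i0)‖) with hη
  have hηpos : 0 < η := lt_min (by positivity) (by positivity)
  set F : (Fin (n + 1) → L) → (Fin (n + 1) → L) := fun v i => eval v (map σ (A α i)) with hF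
  have hFc : Continuous F := continuous_pi fun i => MvPolynomial.continuous_eval _
  obtain ⟨δ, hδ, hδ'⟩ := Metric.continuousAt_iff.1 (hFc.continuousAt (x := fun i => σ (vec p i))) η hηpos
  refine ⟨δ, hδ, fun w ⟨c, hc, hn⟩ => ?_⟩
  have h1 : dist (F (fun i => c * σ (vec w i))) (F (fun i => σ (vec p i))) < η := by
    apply hδ'
    rw [dist_pi_lt_iff hδ]
    intro i
    rw [dist_eq_norm]
    exact hn i
  rw [dist_pi_lt_iff hηpos] at h1
  obtain ⟨a, ha⟩ := hA2 w α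
  have h2 : ∀ i, ‖c ^ e α * σ a * σ (vec (φ w) i) - σ b * σ (vec (φ p) i)‖ < η := by
    intro i
    have h3 := h1 i
    rw [dist_eq_norm] at h3
    have e1 : F (fun i => c * σ (vec w i)) i = c ^ e α * σ a * σ (vec (φ w) i) := by
      rw [hF]
      simp only
      rw [eval_map_smul σ (hA1 α i), ha i, map_mul, mul_assoc]
    have e2 : F (fun i => σ (vec p i)) i = σ b * σ (vec (φ p) i) := by
      have := eval_map_smul σ (hA1 α i) 1 (vec p)
      simp only [one_mul, one_pow] at this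
      rw [hF]
      simp only
      rw [this, hb i, map_mul]
    rwa [e1, e2] at h3
  have ha0 : σ a ≠ 0 := by
    intro h0
    have h3 := h2 i0
    rw [h0, mul_zero, zero_mul, zero_sub, norm_neg, norm_mul] at h3
    exact absurd (h3.trans_le (min_le_right _ _)) (lt_irrefl _)
  refine ⟨c ^ e α * σ a / σ b, div_ne_zero (mul_ne_zero (pow_ne_zero _ hc) ha0) hb', fun i => ?_⟩
  have h3 : c ^ e α * σ a / σ b * σ (vec (φ w) i) - σ (vec (φ p) i) =
      (c ^ e α * σ a * σ (vec (φ w) i) - σ b * σ (vec (φ p) i)) / σ b := by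
    field_simp
  rw [h3, norm_div, div_lt_iff₀ pb]
  exact (h2 i).trans_le (min_le_left _ _)

/-- the local ideal -/
def Lo (σ : K →+* L) (p : RatPt I) (g : Poly K n) : Prop :=
  ∃ ε : ℝ, 0 < ε ∧ ∀ w : RatPt I, Nr σ (vec w) (fun i => σ (vec p i)) ε → ∀ c : K, c ≠ 0 → eval (c • vec w) g = 0

lemma lo_iff [Infinite K] {φ : Equiv.Perm (RatPt I)} {k : ℕ} {e : Fin k → ℕ} {A : Fin k → Fin (n + 1) → Poly K n}
    (hA1 : ∀ α i, (A α i).IsHomogeneous (e α))
    (hA2 : ∀ (p : RatPt I) (α : Fin k), ∃ c : K, ∀ i, eval (vec p) (A α i) = c * vec (φ p) i)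
    (hA3 : ∀ p : RatPt I, ∃ α i, eval (vec p) (A α i) ≠ 0) (hφ' : RegK I φ.symm) (p : RatPt I) (g : Poly K n) :
    Lo σ (φ p) g ↔ ∀ (t : ℕ) (α : Fin k), Lo σ p (bind₁ (A α) (homogeneousComponent t g)) := by
  have hφ : RegK I φ := ⟨k, e, A, hA1, hA2, hA3⟩
  constructor
  · rintro ⟨ε, hε, h⟩ t α
    obtain ⟨δ, hδ, hδ'⟩ := near_map (σ := σ) hφ p hε
    refine ⟨δ, hδ, fun w hw c hc => ?_⟩
    have h1 : eval (vec (φ w)) (homogeneousComponent t g) = 0 := comp_zero (h _ (hδ' w hw)) t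
    have hhom : (bind₁ (A α) (homogeneousComponent t g)).IsHomogeneous (e α * t) :=
      (homogeneousComponent_isHomogeneous t g).aeval _ (hA1 α)
    rw [eval_smul_hom hhom, eval_bind]
    obtain ⟨b, hb⟩ := hA2 w α
    have h2 : (fun i => eval (vec w) (A α i)) = b • vec (φ w) := by
      funext j
      rw [hb j]; rfl
    rw [h2, eval_smul_hom (homogeneousComponent_isHomogeneous t g), h1, mul_zero, mul_zero]
  · intro h
    choose E hE hE' using h
    obtain ⟨ε, hε, hεE⟩ := exists_low (fun j : Fin (g.totalDegree + 1) × Fin k => E j.1 j.2) (fun j => hE _ _)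
    obtain ⟨δ, hδ, hδ'⟩ := near_map (σ := σ) hφ' (φ p) hε
    refine ⟨δ, hδ, fun w hw c hc => ?_⟩
    have h1 := hδ' w hw
    rw [Equiv.symm_apply_apply] at h1
    rw [eval_smul_sum]
    refine Finset.sum_eq_zero fun t ht => ?_
    obtain ⟨α, i, hα⟩ := hA3 (φ.symm w)
    obtain ⟨b, hb⟩ := hA2 (φ.symm w) α
    have hb0 : b ≠ 0 := by
      rintro rfl
      exact hα (by rw [hb i, zero_mul])
    have h3 : Nr σ (vec (φ.symm w)) (fun i => σ (vec p i)) (E t α) := by
      obtain ⟨a, ha, hn⟩ := h1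
      exact ⟨a, ha, fun i => (hn i).trans_le (hεE (⟨t, Finset.mem_range.1 ht⟩, α))⟩
    have h4 := hE' t α (φ.symm w) h3 1 one_ne_zero
    rw [one_smul, eval_bind] at h4
    have h2 : (fun i => eval (vec (φ.symm w)) (A α i)) = b • vec w := by
      funext j
      rw [hb j, Equiv.apply_symm_apply]; rfl
    rw [h2, eval_smul_hom (homogeneousComponent_isHomogeneous t g)] at h4
    rw [(mul_eq_zero.1 h4).resolve_left (pow_ne_zero _ hb0), mul_zero]

end

theorem t : S_ACT := by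
  intro K _ _ n I φ hφ hφ' L _ σ p q hpq g
  obtain ⟨k, e, A, hA1, hA2, hA3⟩ := hφ
  have h1 := lo_iff (σ := σ) hA1 hA2 hA3 hφ' p g
  have h2 := lo_iff (σ := σ) hA1 hA2 hA3 hφ' q g
  change Lo σ (φ p) g ↔ Lo σ (φ q) g
  rw [h1, h2]
  exact forall_congr' fun t => forall_congr' fun α => hpq _

end Pool.Agent.H55.MG.ACT
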