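import Pool.Agent.H55.MG.Stm
import Pool.Agent.H55.MZ.ALG

/-!
Project MG, part ALGD: two rational functions on a curve satisfy an equation whose degree in the second
variable is bounded independently of the second function.
-/

set_option autoImplicit false

open MvPolynomial Filter Topology Height

namespace Pool.Agent.H55.MG.ALGD

open Pool.Agent.H55.MZ Pool.Agent.H55.MZ.ALG

theorem t : S_ALGD := by
  intro K _ n J hJ m hm hJm
  choose e he using hJm
  set D : ℕ := ∑ l, e l with hD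
  have : Module.Finite K (homogeneousSubmodule (Fin (n + 1)) K D) :=
    Module.Finite.iff_fg.2 (homogeneousSubmodule_fg _ _ D)
  set P := homogeneousSubmodule (Fin (n + 1)) K D with hP
  set p : ℕ := Module.finrank K P with hp
  -- the parameters
  refine ⟨p, ?_⟩
  intro δ Ψ hΨ
  set M : ℕ := D + δ * p * p with hM
  obtain ⟨t, ht⟩ : ∃ t, M + δ * p = D + t := ⟨M + δ * p - D, by omega⟩
  -- the map from the products
  set π : Poly K n →ₗ[K] Poly K n ⧸ J := (Ideal.Quotient.mkₐ K J).toLinearMap with hπ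
  let T : (Fin (t + 1) → P) →ₗ[K] Poly K n ⧸ J :=
    ∑ i : Fin (t + 1), π ∘ₗ (LinearMap.mulLeft K (m 0 ^ (i : ℕ) * m 1 ^ (t - i))) ∘ₗ P.subtype
      ∘ₗ LinearMap.proj i
  have hT : ∀ b, T b = π (∑ i : Fin (t + 1), m 0 ^ (i : ℕ) * m 1 ^ (t - i) * (b i : Poly K n)) := by
    intro b
    simp [T, map_sum, mul_assoc]
  have hTr : ∀ g : Poly K n, g.IsHomogeneous (D + t) → π g ∈ LinearMap.range T := by
    intro g hg
    obtain ⟨b, hb, hb'⟩ := forms J hJ m hm e he t g hg
    refine ⟨fun i => ⟨b i, hb i⟩, ?_⟩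
    rw [hT, ← sub_eq_zero, ← map_sub]
    rw [← Fin.sum_univ_eq_sum_range (fun i => m 0 ^ i * m 1 ^ (t - i) * b i)] at hb'
    have : (∑ i : Fin (t + 1), m 0 ^ (i : ℕ) * m 1 ^ (t - i) * b i) - g ∈ J := by
      rw [← neg_sub]
      exact J.neg_mem hb'
    exact Ideal.Quotient.eq_zero_iff_mem.2 this
  let L : (Fin (M + 1) × Fin (p + 1) → K) →ₗ[K] Poly K n ⧸ J :=
    ∑ a : Fin (M + 1) × Fin (p + 1),
      (LinearMap.toSpanSingleton K _ (π (m 0 ^ (M - a.1) * m 1 ^ (a.1 : ℕ) * (Ψ 0 ^ (p - a.2)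
        * Ψ 1 ^ (a.2 : ℕ))))) ∘ₗ LinearMap.proj a
  have hL : ∀ c, L c = π (∑ a : Fin (M + 1) × Fin (p + 1), c a • (m 0 ^ (M - a.1) * m 1 ^ (a.1 : ℕ)
      * (Ψ 0 ^ (p - a.2) * Ψ 1 ^ (a.2 : ℕ)))) := by
    intro c
    simp [L, map_sum, mul_assoc]
  have hLr : LinearMap.range L ≤ LinearMap.range T := by
    rintro _ ⟨c, rfl⟩
    rw [hL]
    apply hTr
    refine IsHomogeneous.sum _ _ _ fun a _ => ?_
    rw [smul_eq_C_mul]
    apply IsHomogeneous.C_mul
    have h1 : (m 0 ^ (M - (a.1 : ℕ))).IsHomogeneous (1 * (M - (a.1 : ℕ))) := (hm 0).pow _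
    have h2 : (m 1 ^ (a.1 : ℕ)).IsHomogeneous (1 * (a.1 : ℕ)) := (hm 1).pow _
    have h3 : (Ψ 0 ^ (p - (a.2 : ℕ))).IsHomogeneous (δ * (p - (a.2 : ℕ))) := (hΨ 0).pow _
    have h4 : (Ψ 1 ^ (a.2 : ℕ)).IsHomogeneous (δ * (a.2 : ℕ)) := (hΨ 1).pow _
    have h5 := (h1.mul h2).mul (h3.mul h4)
    have h6 : 1 * (M - (a.1 : ℕ)) + 1 * (a.1 : ℕ) + (δ * (p - (a.2 : ℕ)) + δ * (a.2 : ℕ)) = D + t := by
      rw [← ht, ← mul_add, ← mul_add, Nat.sub_add_cancel (Nat.lt_succ_iff.1 a.2.2),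
        Nat.sub_add_cancel (Nat.lt_succ_iff.1 a.1.2), one_mul]
    rwa [h6] at h5
  have hdim : ¬ Function.Injective L := by
    intro hinj
    have h1 : Module.finrank K (LinearMap.range L) = (M + 1) * (p + 1) := by
      rw [LinearMap.finrank_range_of_inj hinj]
      simp
    have h2 : Module.finrank K (LinearMap.range L) ≤ Module.finrank K (LinearMap.range T) :=
      Submodule.finrank_mono hLr
    have h3 : Module.finrank K (LinearMap.range T) ≤ (t + 1) * p := by
      refine (LinearMap.finrank_range_le T).trans (le_of_eq ?_)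
      rw [Module.finrank_pi_fintype]
      simp [hp]
    have h4 : (t + 1) * p ≤ (M + δ * p + 1) * p := Nat.mul_le_mul_right _ (by omega)
    have h5 : (M + δ * p + 1) * p < (M + 1) * (p + 1) := by
      have h6 : δ * p * p < M + 1 := by omega
      have h7 : (M + δ * p + 1) * p = (M + 1) * p + δ * p * p := by ring
      have h8 : (M + 1) * (p + 1) = (M + 1) * p + (M + 1) := by ring
      omega
    omega
  obtain ⟨c, hc0, hcL⟩ : ∃ c, c ≠ 0 ∧ L c = 0 := by
    by_contra hcon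
    push Not at hcon
    apply hdim
    rw [injective_iff_map_eq_zero]
    intro c hc
    by_contra h0
    exact hcon c h0 hc
  rw [hL] at hcL
  have hcJ : (∑ a : Fin (M + 1) × Fin (p + 1), c a • (m 0 ^ (M - a.1) * m 1 ^ (a.1 : ℕ)
      * (Ψ 0 ^ (p - a.2) * Ψ 1 ^ (a.2 : ℕ)))) ∈ J := Ideal.Quotient.eq_zero_iff_mem.1 hcL
  -- the polynomial
  set F : Polynomial (Polynomial K) := ∑ j : Fin (p + 1), Polynomial.monomial (j : ℕ)
    (∑ i : Fin (M + 1), Polynomial.monomial (i : ℕ) (c (i, j))) with hF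
  refine ⟨F, ?_, ?_, ?_⟩
  · intro h0
    apply hc0
    funext a
    have h1 : (F.coeff (a.2 : ℕ)).coeff (a.1 : ℕ) = c a := by
      rw [hF]
      simp only [Polynomial.finsetSum_coeff, Polynomial.coeff_monomial]
      rw [Finset.sum_eq_single a.2]
      · rw [if_pos rfl]
        simp only [Polynomial.finsetSum_coeff, Polynomial.coeff_monomial]
        rw [Finset.sum_eq_single a.1]
        · rw [if_pos rfl]
        · intro b _ hb
          exact if_neg fun h => hb (Fin.ext h)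
        · simp
      · intro b _ hb
        rw [if_neg fun h => hb (Fin.ext h)]
        exact Polynomial.coeff_zero _
      · simp
    rw [h0] at h1
    simpa using h1.symm
  · refine Polynomial.natDegree_sum_le_of_forall_le _ _ fun j _ => ?_
    exact (Polynomial.natDegree_monomial_le _).trans (Nat.lt_succ_iff.1 j.2)
  · intro x hx hm0 hΨ0
    have h1 := hx _ hcJ
    rw [map_sum] at h1
    simp only [smul_eval, map_mul, map_pow] at h1
    have h2 : F.evalEval (eval x (m 1) / eval x (m 0)) (eval x (Ψ 1) / eval x (Ψ 0))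
        = ∑ a : Fin (M + 1) × Fin (p + 1), c a * ((eval x (m 1) / eval x (m 0)) ^ (a.1 : ℕ)
          * (eval x (Ψ 1) / eval x (Ψ 0)) ^ (a.2 : ℕ)) := by
      rw [hF, Fintype.sum_prod_type_right]
      simp only [Polynomial.evalEval, Polynomial.eval_finsetSum, Polynomial.eval_monomial,
        Polynomial.eval_mul, Polynomial.eval_pow, Polynomial.eval_C]
      refine Finset.sum_congr rfl fun j _ => ?_
      rw [Finset.sum_mul]
      refine Finset.sum_congr rfl fun i _ => ?_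
      ring
    have h3 : eval x (m 0) ^ M * eval x (Ψ 0) ^ p
        * F.evalEval (eval x (m 1) / eval x (m 0)) (eval x (Ψ 1) / eval x (Ψ 0)) = 0 := by
      rw [h2, Finset.mul_sum, ← h1]
      refine Finset.sum_congr rfl fun a _ => ?_
      have e1 : eval x (m 0) ^ M = eval x (m 0) ^ (M - (a.1 : ℕ)) * eval x (m 0) ^ (a.1 : ℕ) := by
        rw [← pow_add, Nat.sub_add_cancel (Nat.lt_succ_iff.1 a.1.2)]
      have e2 : eval x (Ψ 0) ^ p = eval x (Ψ 0) ^ (p - (a.2 : ℕ)) * eval x (Ψ 0) ^ (a.2 : ℕ) := by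
        rw [← pow_add, Nat.sub_add_cancel (Nat.lt_succ_iff.1 a.2.2)]
      rw [e1, e2, div_pow, div_pow]
      field_simp
    have h4 : eval x (m 0) ^ M * eval x (Ψ 0) ^ p ≠ 0 := mul_ne_zero (pow_ne_zero _ hm0) (pow_ne_zero _ hΨ0)
    exact (mul_eq_zero.1 h3).resolve_left h4

end Pool.Agent.H55.MG.ALGD
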