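import Pool.Agent.H55.MG.Stm

/-!
# Project MG: stub COMP (irreducible components of a set of points)
-/

set_option autoImplicit false

open MvPolynomial Filter Topology Height
open scoped LinearAlgebra.Projectivization Pointwise

namespace Pool.Agent.H55.MG.COMP

open Pool.Agent.H55.MZ (Poly NoZero Homog Pt Par eval_smul_hom eval_bind)

section

variable {K : Type} [Field K] [Infinite K] {n : ℕ} {I : Ideal (Poly K n)}

/-- restriction to the line through a point -/
noncomputable def line (p : RatPt I) : Poly K n →+* Polynomial K :=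
  (eval₂Hom Polynomial.C (fun i => Polynomial.C (vec p i) * Polynomial.X))

lemma line_eval (p : RatPt I) (g : Poly K n) (c : K) : (line p g).eval c = eval (c • vec p) g := by
  have : (Polynomial.evalRingHom c).comp (line p) = eval (c • vec p) := by
    apply MvPolynomial.ringHom_ext
    · intro r; simp [line]
    · intro i
      have : line p (X i) = Polynomial.C (vec p i) * Polynomial.X := by simp [line]
      rw [RingHom.comp_apply, this, map_mul, Polynomial.coe_evalRingHom, Polynomial.eval_C, Polynomial.eval_X, eval_X]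
      exact mul_comm _ _
  exact congrArg (fun φ : Poly K n →+* K => φ g) this

lemma line_zero (p : RatPt I) (g : Poly K n) : line p g = 0 ↔ ∀ c : K, c ≠ 0 → eval (c • vec p) g = 0 := by
  constructor
  · intro h c _
    rw [← line_eval, h, Polynomial.eval_zero]
  · intro h
    apply Polynomial.eq_zero_of_infinite_isRoot
    refine Set.Infinite.mono (s := {c : K | c ≠ 0}) ?_ ?_
    · intro c hc
      show Polynomial.eval c (line p g) = 0
      rw [line_eval]; exact h c hc
    · have : ({c : K | c ≠ 0} : Set K) = {0}ᶜ := by ext c; simp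
      rw [this]
      exact (Set.finite_singleton _).infinite_compl

/-- the prime ideal of a point -/
noncomputable def pnt (p : RatPt I) : PrimeSpectrum (Poly K n) := ⟨RingHom.ker (line p), RingHom.ker_isPrime _⟩

/-- the Zariski topology -/
@[reducible] noncomputable def zar (I : Ideal (Poly K n)) : TopologicalSpace (RatPt I) :=
  TopologicalSpace.induced pnt inferInstance

lemma isClosed_iff' (Z : Set (RatPt I)) : @IsClosed _ (zar I) Z ↔ ZClosed I Z := by
  letI := zar I
  have hset : ∀ S : Set (Poly K n), pnt ⁻¹' PrimeSpectrum.zeroLocus S =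
      {p : RatPt I | ∀ g ∈ S, ∀ c : K, c ≠ 0 → eval (c • vec p) g = 0} := by
    intro S
    ext p
    simp only [Set.mem_preimage, PrimeSpectrum.mem_zeroLocus]
    constructor
    · intro h g hg
      exact (line_zero p g).1 (h hg)
    · intro h g hg
      exact (line_zero p g).2 (h g hg)
  rw [isClosed_induced_iff]
  constructor
  · rintro ⟨t, ht, rfl⟩
    obtain ⟨S, rfl⟩ := (PrimeSpectrum.isClosed_iff_zeroLocus t).1 ht
    exact ⟨S, hset S⟩
  · rintro ⟨S, rfl⟩
    exact ⟨PrimeSpectrum.zeroLocus S, PrimeSpectrum.isClosed_zeroLocus S, hset S⟩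

end

/-- homeomorphisms permute the irreducible components -/
lemma image_comp {X : Type} [TopologicalSpace X] (e e' : X → X) (he : Continuous e) (he' : Continuous e')
    (h1 : ∀ x, e (e' x) = x) (h2 : ∀ x, e' (e x) = x) {s : Set X} (hs : s ∈ irreducibleComponents X) :
    e '' s ∈ irreducibleComponents X := by
  have hs' : Maximal IsIrreducible s := hs
  refine ⟨hs'.1.image e he.continuousOn, ?_⟩
  intro t ht hst
  have h3 : s ⊆ e' '' t := by
    intro x hx
    exact ⟨e x, hst ⟨x, hx, rfl⟩, h2 x⟩
  have h4 := hs'.2 (ht.image e' he'.continuousOn) h3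
  intro y hy
  exact ⟨e' y, h4 ⟨y, hy, rfl⟩, h1 y⟩

theorem t : S_COMP := by
  classical
  intro K _ _ n I Γ hΓ T hTinf hT
  letI := zar I
  haveI : TopologicalSpace.NoetherianSpace (RatPt I) :=
    (Topology.IsInducing.mk rfl : Topology.IsInducing (pnt : RatPt I → PrimeSpectrum (Poly K n))).noetherianSpace
  have hcont : ∀ γ ∈ Γ, Continuous γ := by
    intro γ hγ
    rw [continuous_iff_isClosed]
    intro Z hZ
    exact (isClosed_iff' _).2 (hΓ γ hγ Z ((isClosed_iff' Z).1 hZ))
  -- the action on `T`
  letI : MulAction Γ T :=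
    { smul := fun γ y => ⟨γ.1 y, hT γ γ.2 y y.2⟩
      one_smul := fun y => rfl
      mul_smul := fun a b y => rfl }
  have hsc : ∀ γ : Γ, Continuous (fun y : T => γ • y) := fun γ =>
    ((hcont γ γ.2).comp continuous_subtype_val).subtype_mk _
  have hfin : (irreducibleComponents T).Finite := TopologicalSpace.NoetherianSpace.finite_irreducibleComponents
  haveI : Infinite T := hTinf.to_subtype
  obtain ⟨C0, hC0, hC0inf⟩ : ∃ C0 ∈ irreducibleComponents T, C0.Infinite := by
    by_contra hcon
    push Not at hcon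
    have h1 : (Set.univ : Set T).Finite := by
      rw [← sUnion_irreducibleComponents]
      exact hfin.sUnion fun s hs => hcon s hs
    exact Set.infinite_univ h1
  have horb : (MulAction.orbit Γ C0).Finite := by
    refine hfin.subset ?_
    rintro _ ⟨γ, rfl⟩
    exact image_comp (fun y : T => γ • y) (fun y : T => γ⁻¹ • y) (hsc γ) (hsc γ⁻¹) (fun x => smul_inv_smul γ x)
      (fun x => inv_smul_smul γ x) hC0
  refine ⟨Subtype.val '' C0, (MulAction.stabilizer Γ C0).map Γ.subtype, ?_, ?_, ?_, ?_, ?_, ?_⟩
  · rintro _ ⟨y, _, rfl⟩; exact y.2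
  · exact hC0inf.image Subtype.val_injective.injOn
  · have h1 : IsIrreducible (Subtype.val '' C0 : Set (RatPt I)) :=
      (hC0.1 : IsIrreducible C0).image _ continuous_subtype_val.continuousOn
    refine ⟨h1.1, fun Z₁ Z₂ hZ₁ hZ₂ h => ?_⟩
    exact isPreirreducible_iff_isClosed_union_isClosed.1 h1.2 Z₁ Z₂ ((isClosed_iff' _).2 hZ₁)
      ((isClosed_iff' _).2 hZ₂) h
  · rintro _ ⟨γ, _, rfl⟩; exact γ.2
  · have h1 : ((MulAction.stabilizer Γ C0).map Γ.subtype).subgroupOf Γ = MulAction.stabilizer Γ C0 :=
      Subgroup.comap_map_eq_self_of_injective Γ.subtype_injective _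
    rw [Subgroup.relIndex, h1, MulAction.index_stabilizer]
    exact (Set.ncard_pos horb).2 (MulAction.nonempty_orbit C0) |>.ne'
  · rintro _ ⟨γ, hγ, rfl⟩ _ ⟨y, hy, rfl⟩
    have h1 : γ • C0 = C0 := hγ
    refine ⟨γ • y, ?_, rfl⟩
    rw [← h1]
    exact Set.smul_mem_smul_set hy

end Pool.Agent.H55.MG.COMP
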