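import Pool.Agent.H55.MG.Stm
import Pool.Agent.H55.MZ.Dens
import Pool.Agent.H55.MZ.NULL
import Pool.Agent.H55.MZ.NORM

/-!
# Project MG: an infinite set of `K`-points of a surface which is stable under a subgroup of finite index is Zariski dense
-/

set_option autoImplicit false

open MvPolynomial Filter Topology Height
open scoped LinearAlgebra.Projectivization

namespace Pool.Agent.H55.MG

open Pool.Agent.H55.MZ (Poly NoZero Homog Pt Par S_NULL S_NORM eval_smul_hom eval_bind)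

section Bas

variable {K : Type} [Field K] {n : ℕ} {I : Ideal (Poly K n)}

lemma vec_ne (p : RatPt I) : vec p ≠ 0 := p.1.rep_nonzero

lemma vec_pt (p : RatPt I) : Pt I (vec p) := ⟨vec_ne p, p.2⟩

/-- proportional representatives belong to the same point -/
lemma eq_of_par {p q : RatPt I} (h : Par (vec p) (vec q)) : p = q := by
  obtain ⟨c, hc, h⟩ := h
  apply Subtype.ext
  rw [← p.1.mk_rep, ← q.1.mk_rep, Projectivization.mk_eq_mk_iff']
  refine ⟨c⁻¹, ?_⟩
  change c⁻¹ • vec q = vec p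
  rw [h, smul_smul, inv_mul_cancel₀ hc, one_smul]

/-- each vector on `X` belongs to a point -/
lemma exists_pt (hI : Homog I) {x : Fin (n + 1) → K} (hx : Pt I x) : ∃ p : RatPt I, Par x (vec p) := by
  have h1 : Par x ((Projectivization.mk K x hx.1).rep) := by
    obtain ⟨a, ha⟩ := Projectivization.exists_smul_eq_mk_rep K x hx.1
    refine ⟨(a : K), a.ne_zero, ?_⟩
    rw [← ha]
    rfl
  obtain ⟨c, hc, h2⟩ := h1
  refine ⟨⟨Projectivization.mk K x hx.1, fun g hg => ?_⟩, c, hc, h2⟩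
  rw [h2]
  exact (hx.smul hI hc).2 g hg

lemma RegK.id : RegK I (fun p : RatPt I => p) := by
  refine ⟨1, fun _ => 1, fun _ => X, fun _ i => isHomogeneous_X K i, fun p _ => ⟨1, fun i => by simp⟩, fun p => ?_⟩
  obtain ⟨i, hi⟩ : ∃ i, vec p i ≠ 0 := by
    by_contra hcon
    push Not at hcon
    exact vec_ne p (funext hcon)
  exact ⟨0, i, by simpa using hi⟩

lemma Regular.regK {φ : RatPt I → RatPt I} (h : Regular I φ) : RegK I φ := by
  obtain ⟨k, e, A, h1, h2, h3⟩ := h
  refine ⟨k, e, A, h1, h3, fun p => ?_⟩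
  obtain ⟨⟨α, i⟩, h⟩ := h2.exists_ne (vec_ne p) p.2
  exact ⟨α, i, h⟩

/-- the automorphisms given by forms -/
lemma closure_reg (hC : S_REGC) {S : Set (Equiv.Perm (RatPt I))} (hS : ∀ g ∈ S, RegK I g ∧ RegK I g.symm)
    {γ : Equiv.Perm (RatPt I)} (hγ : γ ∈ Subgroup.closure S) : RegK I γ ∧ RegK I γ.symm := by
  induction hγ using Subgroup.closure_induction with
  | mem g hg => exact hS g hg
  | one => exact ⟨RegK.id, RegK.id⟩
  | mul g h _ _ hg hh =>
    refine ⟨hC K n I g h hg.1 hh.1, ?_⟩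
    have : ((g * h : Equiv.Perm (RatPt I)).symm : RatPt I → RatPt I) = h.symm ∘ g.symm := rfl
    rw [this]
    exact hC K n I _ _ hh.2 hg.2
  | inv g _ hg => exact ⟨hg.2, hg.1⟩

/-- the transport of the equation of a curve -/
lemma move {γ : Equiv.Perm (RatPt I)} (hγ : RegK I γ.symm) {T : Set (RatPt I)} {g : Poly K n} {s : ℕ}
    (hg : g.IsHomogeneous s) (hgI : g ∉ I) (hT : ∀ q ∈ T, eval (vec q) g = 0) :
    ∃ (g' : Poly K n) (s' : ℕ), g'.IsHomogeneous s' ∧ g' ∉ I ∧ ∀ q ∈ T, eval (vec (γ q)) g' = 0 := by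
  by_cases hcase : ∃ (p : Poly K n) (t : ℕ), p.IsHomogeneous t ∧ p ∉ I ∧ ∀ y : RatPt I, eval (vec y) p = 0
  · obtain ⟨p, t, h1, h2, h3⟩ := hcase
    exact ⟨p, t, h1, h2, fun q _ => h3 _⟩
  push Not at hcase
  obtain ⟨k, e, A, h1, h2, h3⟩ := hγ
  by_cases hα : ∃ α, bind₁ (A α) g ∉ I
  · obtain ⟨α, hα⟩ := hα
    refine ⟨bind₁ (A α) g, e α * s, hg.aeval _ (h1 α), hα, fun q hq => ?_⟩
    obtain ⟨c, hc⟩ := h2 (γ q) α
    rw [eval_bind]
    have : (fun i => eval (vec (γ q)) (A α i)) = c • vec q := by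
      funext i
      rw [hc i, Equiv.symm_apply_apply]
      rfl
    rw [this, eval_smul_hom hg, hT q hq, mul_zero]
  · exfalso
    push Not at hα
    obtain ⟨y, hy⟩ := hcase g s hg hgI
    apply hy
    obtain ⟨α, i, hi⟩ := h3 (γ y)
    obtain ⟨c, hc⟩ := h2 (γ y) α
    have hc0 : c ≠ 0 := by
      rintro rfl
      exact hi (by rw [hc i, zero_mul])
    have h4 := (γ y).2 _ (hα α)
    change eval (vec (γ y)) _ = 0 at h4
    rw [eval_bind] at h4
    have : (fun i => eval (vec (γ y)) (A α i)) = c • vec y := by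
      funext i
      rw [hc i, Equiv.symm_apply_apply]
      rfl
    rw [this, eval_smul_hom hg] at h4
    exact (mul_eq_zero.1 h4).resolve_left (pow_ne_zero _ hc0)

end Bas

section Lim

/-- ratios at bounded distance -/
lemma ratio_pert {α : Type} {l : Filter α} {a a' b b' : α → ℝ} {C C' r : ℝ} (ha : ∀ᶠ k in l, |a k - a' k| ≤ C)
    (hb : ∀ᶠ k in l, |b k - b' k| ≤ C') (hbt : Tendsto b l atTop) (hr : Tendsto (fun k => a k / b k) l (𝓝 r)) :
    Tendsto (fun k => a' k / b' k) l (𝓝 r) := by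
  -- b' / b → 1
  have h1 : Tendsto (fun k => (b k - b' k) / b k) l (𝓝 0) := by
    rw [tendsto_zero_iff_abs_tendsto_zero]
    refine squeeze_zero' (Eventually.of_forall fun k => abs_nonneg _) ?_
      (Tendsto.div_atTop (tendsto_const_nhds (x := C')) hbt)
    filter_upwards [hb, hbt.eventually_gt_atTop 0] with k hk hpos
    simp only [Function.comp]
    rw [abs_div, abs_of_pos hpos]
    gcongr
  have h2 : Tendsto (fun k => (a k - a' k) / b k) l (𝓝 0) := by
    rw [tendsto_zero_iff_abs_tendsto_zero]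
    refine squeeze_zero' (Eventually.of_forall fun k => abs_nonneg _) ?_
      (Tendsto.div_atTop (tendsto_const_nhds (x := C)) hbt)
    filter_upwards [ha, hbt.eventually_gt_atTop 0] with k hk hpos
    simp only [Function.comp]
    rw [abs_div, abs_of_pos hpos]
    gcongr
  have h3 : Tendsto (fun k => (a k / b k - (a k - a' k) / b k) / (1 - (b k - b' k) / b k)) l (𝓝 ((r - 0) / (1 - 0))) :=
    (hr.sub h2).div (tendsto_const_nhds.sub h1) (by norm_num)
  rw [sub_zero, sub_zero, div_one] at h3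
  refine h3.congr' ?_
  have hb't : Tendsto b' l atTop := by
    refine tendsto_atTop_mono' _ (f₁ := fun k => b k - C') ?_ (tendsto_atTop_add_const_right _ _ hbt)
    filter_upwards [hb] with k hk
    have := (abs_le.1 hk).2
    linarith
  filter_upwards [hbt.eventually_gt_atTop 0, hb't.eventually_gt_atTop 0] with k hk hk'
  have e1 : a k / b k - (a k - a' k) / b k = a' k / b k := by rw [← sub_div]; congr 1; ring
  have e2 : 1 - (b k - b' k) / b k = b' k / b k := by
    rw [eq_div_iff hk.ne', sub_mul, div_mul_cancel₀ _ hk.ne']; ring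
  rw [e1, e2, div_div_div_cancel_right₀ hk.ne']

lemma tendsto_pert {α : Type} {l : Filter α} {a a' : α → ℝ} {C : ℝ} (ha : ∀ᶠ k in l, |a k - a' k| ≤ C)
    (hat : Tendsto a l atTop) : Tendsto a' l atTop := by
  refine tendsto_atTop_mono' _ (f₁ := fun k => a k - C) ?_ (tendsto_atTop_add_const_right _ _ hat)
  filter_upwards [ha] with k hk
  have := (abs_le.1 hk).2
  linarith

end Lim

section Curve

variable {K : Type} [Field K] [NumberField K] {n : ℕ} {I : Ideal (Poly K n)}

/-- Northcott for the points of `X(K)` -/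
lemma northcott_pt (I : Ideal (Poly K n)) (B : ℝ) : {p : RatPt I | logHeight (vec p) ≤ B}.Finite := by
  classical
  have hfin := MZ.northcott (K := K) (n := n) B
  -- choose normalized representatives
  have h1 : ∀ p : RatPt I, ∃ y : Fin (n + 1) → K, Par (vec p) y ∧ ∃ i, y i = 1 :=
    fun p => MZ.exists_norm (vec_ne p)
  choose y hy hy1 using h1
  refine Set.Finite.of_finite_image (f := y) (hfin.subset ?_) ?_
  · rintro _ ⟨p, hp, rfl⟩
    refine ⟨hy1 p, ?_⟩
    rw [← MZ.logHeight_par (hy p)]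
    exact hp
  · intro p _ q _ h
    apply eq_of_par
    refine (hy p).trans ?_
    rw [h]
    exact (hy q).symm

/-- Data: the set `T` lies on curves, and so do its images. -/
lemma proj_mv (hN : S_NULL) (hNO : S_NORM) (hp : I.IsPrime) (hI : Homog I)
    (ℓ : Fin 3 → Poly K n) (hℓ : ∀ i, (ℓ i).IsHomogeneous 1) (hℓ0 : NoZero I ℓ)
    {γ : Equiv.Perm (RatPt I)} (hγ : RegK I γ.symm) {T : Set (RatPt I)} {g : Poly K n} {s : ℕ}
    (hg : g.IsHomogeneous s) (hgI : g ∉ I) (hT : ∀ q ∈ T, eval (vec q) g = 0) :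
    ∃ (J : Ideal (Poly K n)) (m : Fin 2 → Poly K n) (C : ℝ), Homog J ∧ (∀ i, (m i).IsHomogeneous 1) ∧ NoZero J m ∧
      (∀ q ∈ T, ∀ f ∈ J, eval (vec (γ q)) f = 0) ∧
      ∀ q ∈ T, |logHeight ![eval (vec (γ q)) (m 0), eval (vec (γ q)) (m 1)] - logHeight (vec (γ q))| ≤ C := by
  obtain ⟨g', s', h1, h2, h3⟩ := move hγ hg hgI hT
  obtain ⟨m, hm1, hm0⟩ := hNO K n I hp hI ℓ hℓ hℓ0 g' s' h1 h2
  have hJh : Homog (I ⊔ Ideal.span {g'}) := MZ.homog_sup I hI h1
  obtain ⟨C, hC⟩ := MZ.proj hN hJh hm1 hm0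
  have hz : ∀ q ∈ T, ∀ f ∈ I ⊔ Ideal.span {g'}, eval (vec (γ q)) f = 0 := by
    intro q hq
    have : I ⊔ Ideal.span {g'} ≤ RingHom.ker (eval (vec (γ q))) := by
      refine sup_le (fun f hf => (γ q).2 f hf) ?_
      rw [Ideal.span_le]
      rintro _ rfl
      exact h3 q hq
    exact fun f hf => this hf
  exact ⟨_, m, C, hJh, hm1, hm0, hz, fun q hq => hC _ (hz q hq)⟩

/-- the height of the quotient of two coordinates -/
lemma ht_quot {h C : ℝ} (a b : K) (hab : |logHeight ![a, b] - h| ≤ C) (ha : C < h) :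
    a ≠ 0 ∧ |logHeight₁ (b / a) - h| ≤ C := by
  have ha0 : a ≠ 0 := by
    rintro rfl
    rw [logHeight_cons_zero, logHeight_eq_zero_of_subsingleton, zero_sub, abs_neg] at hab
    exact absurd (le_abs_self h) (by linarith)
  refine ⟨ha0, ?_⟩
  rw [logHeight₁_div_eq_logHeight, logHeight_swap]
  exact hab

end Curve

end Pool.Agent.H55.MG
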