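import Pool.Agent.H55.MG.Stm

/-!
# Project MG, part 2: arbitrary dimension.  Statements of the parts.
-/

set_option autoImplicit false

open MvPolynomial

namespace Pool.Agent.H55.MG

open Pool.Agent.H55.MZ (Poly NoZero Homog)

/-- At most linear growth (dimension at most one): the spaces of forms of degree `s` have dimension at most
`c (s + 1)` modulo `J`. -/
def Gr {K : Type} [Field K] {n : ℕ} (J : Ideal (Poly K n)) : Prop :=
  ∃ c : ℕ, ∀ (s : ℕ) (W : Type) [AddCommGroup W] [Module K W] [Module.Finite K W] (f : W →ₗ[K] Poly K n),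
    (∀ w, (f w).IsHomogeneous s) →
    Module.finrank K (LinearMap.range ((Ideal.Quotient.mkₐ K J).toLinearMap ∘ₗ f)) ≤ c * (s + 1)

/-- GRB.  Proof.  Lemma `forms` of `Pool/Agent/H55/MZ/ALG.lean` (see its use, the map `T`, in the proof of `ALG.t` and of
`Pool/Agent/H55/MG/ALGD.lean`): for `s = D + t`, `D = ∑ e l`, the image is contained in the range of a linear map from
`Fin (t + 1) → P_D`, so the dimension is at most `(t + 1) dim P_D`.  For `s < D` it is at most `dim P_s`.  Take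
`c = dim P_D + ∑ s < D, dim P_s`. -/
def S_GRB : Prop := ∀ (K : Type) [Field K] (n : ℕ) (J : Ideal (Poly K n)) (_ : Homog J)
  (m : Fin 2 → Poly K n) (_ : ∀ i, (m i).IsHomogeneous 1) (_ : NoZero J m), Gr J

/-- GRT.  Proof.  `J' = {g | ∀ t α, bind₁ (A α) (g_t) ∈ J}`, an ideal (`(a g)_t = ∑_{i+j=t} a_i g_j`), homogeneous.  Let
`f : W → P_s`, `π`, `π'` the projections modulo `J`, `J'`.  The kernel of `π' ∘ f` is the kernel of
`w ↦ (π (bind₁ (A α) (f w)))_α`, so `finrank (range (π' ∘ f)) = finrank W - finrank ker ≤ ∑ α, finrank (range (w ↦ π (bind₁ (A α) (f w))))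
≤ ∑ α, c (e α s + 1) ≤ (c ∑ α, (e α + 1)) (s + 1)`. -/
def S_GRT : Prop := ∀ (K : Type) [Field K] (n : ℕ) (J : Ideal (Poly K n)) (_ : Homog J) (_ : Gr J)
  (k : ℕ) (e : Fin k → ℕ) (A : Fin k → Fin (n + 1) → Poly K n) (_ : ∀ α i, (A α i).IsHomogeneous (e α)),
  ∃ J' : Ideal (Poly K n), Homog J' ∧ Gr J' ∧
    ∀ g ∈ J', ∀ (t : ℕ) (α : Fin k), bind₁ (A α) (homogeneousComponent t g) ∈ J

/-- DIM.  Proof.  Induction on `k`: if there are `k` linear forms `ℓ` with `NoZero J ℓ` (for `k = n + 1` take the `X i`), then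
there are two.  If `k ≤ 2` add zeros.  Let `k ≥ 3`.  The `(s+1)²` forms `ℓ 0 ^ a ℓ 1 ^ b ℓ 2 ^ (2s-a-b)`, `a, b ≤ s`, have
degree `2 s`, and `c (2 s + 1) < (s + 1)²` for `s = 2 c`, so they are linearly dependent modulo `J`
(`Gr J` with `W = Fin (s+1) × Fin (s+1) → K`): there is a form `A ≠ 0` of degree `2 s` in `k` variables with `aeval ℓ A ∈ J`.
(If `s = 0`, i.e. `c = 0`, take `s = 1`.)
Now as in the main case of the proof of `S_NORM` in `Pool/Agent/H55/MZ/NORM.lean` (which is written for `k = 3`; there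
`aeval ℓ A ∈ I + (g)`): `A(a) ≠ 0` for some `a ∈ K ^ k`, `a i₀ ≠ 0`, and the `k - 1` forms
`a i₀ ℓ (i₀.succAbove j) - a (i₀.succAbove j) ℓ i₀` have `NoZero J`. -/
def S_DIM : Prop := ∀ (K : Type) [Field K] [Infinite K] (n : ℕ) (J : Ideal (Poly K n)) (_ : Homog J) (_ : Gr J),
  ∃ m : Fin 2 → Poly K n, (∀ i, (m i).IsHomogeneous 1) ∧ NoZero J m

end Pool.Agent.H55.MG
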