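import Pool.Agent.H55.MG.Crv
import Pool.Agent.H55.MG.Crv2
import Pool.Agent.H55.MG.Stm2

/-!
# Project MG: arbitrary dimension: an infinite set of `K`-points which is stable under a subgroup of finite index does not
lie on a curve
-/

set_option autoImplicit false

open MvPolynomial Filter Topology Height
open scoped LinearAlgebra.Projectivization

namespace Pool.Agent.H55.MG

open Pool.Agent.H55.MZ (Poly NoZero Homog Pt Par S_NULL S_NORM eval_smul_hom eval_bind eval_smul_sum)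

section Curve

variable {K : Type} [Field K] [NumberField K] {n : ℕ} {I : Ideal (Poly K n)}

/-- The core: an infinite set `T` of points stable under a subgroup of finite index cannot be such that all its
images lie on curves. -/
theorem core (hREGC : S_REGC) (hZCR : S_ZCR) (hCOMP : S_COMP) (hIRRF : S_IRRF) (hLIM : S_LIM)
    {r s : ℕ} (hrs : r ≠ s) (P : Fin r → Equiv.Perm (RatPt I)) (Q : Fin s → Equiv.Perm (RatPt I))
    (hP : ∀ i, RegK I (P i) ∧ RegK I (P i).symm) (hQ : ∀ j, RegK I (Q j) ∧ RegK I (Q j).symm)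
    {C1 : ℝ} (hrel : ∀ p, |∑ i, logHeight (vec (P i p)) - ∑ j, logHeight (vec (Q j p))| ≤ C1)
    (Γ : Subgroup (Equiv.Perm (RatPt I))) (hΓ : Γ ≤ Subgroup.closure (Set.range P ∪ Set.range Q))
    (hidx : Γ.relIndex (Subgroup.closure (Set.range P ∪ Set.range Q)) ≠ 0)
    (T : Set (RatPt I)) (hTinf : T.Infinite) (hT : ∀ γ ∈ Γ, ∀ y ∈ T, γ y ∈ T)
    (hmv : ∀ γ ∈ Subgroup.closure (Set.range P ∪ Set.range Q), ∃ (J : Ideal (Poly K n)) (m : Fin 2 → Poly K n)
      (c : ℝ), Homog J ∧ (∀ i, (m i).IsHomogeneous 1) ∧ NoZero J m ∧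
      (∀ q ∈ T, ∀ f ∈ J, eval (vec (γ q)) f = 0) ∧
      ∀ q ∈ T, |logHeight ![eval (vec (γ q)) (m 0), eval (vec (γ q)) (m 1)] - logHeight (vec (γ q))| ≤ c) :
    False := by
  classical
  set Γ0 : Subgroup (Equiv.Perm (RatPt I)) := Subgroup.closure (Set.range P ∪ Set.range Q) with hΓ0
  have hreg : ∀ γ ∈ Γ0, RegK I γ ∧ RegK I γ.symm := fun γ hγ => closure_reg hREGC (by
    rintro g (⟨i, rfl⟩ | ⟨j, rfl⟩)
    · exact hP i
    · exact hQ j) hγ
  obtain ⟨C, Γ', hCT, hCinf, hCirr, hΓ'Γ, hidx', hC⟩ :=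
    hCOMP K n I Γ (fun γ hγ => hZCR K n I γ (hreg γ (hΓ hγ)).1) T hTinf hT
  obtain ⟨J, m, c0, hJ, hm1, hm0, hzJ, hb0⟩ := hmv 1 (one_mem _)
  simp only [Equiv.Perm.coe_one, id] at hzJ hb0
  obtain ⟨D, hD⟩ := hIRRF K n J hJ m hm1 hm0
  haveI : Infinite C := hCinf.to_subtype
  have ht : ∀ γ : Equiv.Perm (RatPt I), Tendsto (fun p : C => logHeight (vec (γ p))) cofinite atTop := by
    intro γ
    rw [tendsto_atTop]
    intro B
    have hfin : {p : C | logHeight (vec (γ p)) ≤ B}.Finite := by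
      refine Set.Finite.of_finite_image (f := fun p : C => γ p) ((northcott_pt I B).subset ?_) ?_
      · rintro _ ⟨p, hp, rfl⟩; exact hp
      · intro p _ q _ h; exact Subtype.ext (γ.injective h)
    refine hfin.subset fun p hp => ?_
    simp only [Set.mem_compl_iff, Set.mem_setOf_eq, not_le] at hp
    exact hp.le
  have ht1 : Tendsto (fun p : C => logHeight (vec (p : RatPt I))) cofinite atTop := ht 1
  have hlim : ∀ γ ∈ Γ0, ∃ ρ : ℝ, Tendsto (fun p : C => logHeight (vec (γ p)) / logHeight (vec (p : RatPt I)))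
      cofinite (𝓝 ρ) ∧ 1 ≤ ρ * D := by
    intro γ hγ
    obtain ⟨J', m', c', hJ', hm1', hm0', hzJ', hb'⟩ := hmv γ hγ
    have e1 : ∀ᶠ p : C in cofinite, eval (vec (p : RatPt I)) (m 0) ≠ 0 ∧
        |logHeight₁ (eval (vec (p : RatPt I)) (m 1) / eval (vec (p : RatPt I)) (m 0)) -
          logHeight (vec (p : RatPt I))| ≤ c0 := by
      filter_upwards [ht1.eventually_gt_atTop c0] with p hp'
      exact ht_quot _ _ (hb0 p (hCT p.2)) hp'
    have e2 : ∀ᶠ p : C in cofinite, eval (vec (γ p)) (m' 0) ≠ 0 ∧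
        |logHeight₁ (eval (vec (γ p)) (m' 1) / eval (vec (γ p)) (m' 0)) - logHeight (vec (γ p))| ≤ c' := by
      filter_upwards [(ht γ).eventually_gt_atTop c'] with p hp'
      exact ht_quot _ _ (hb' p (hCT p.2)) hp'
    obtain ⟨p0, hp0, hp0'⟩ := (e1.and e2).exists
    obtain ⟨F, hF, hFD, hFz⟩ := hD I C hCirr (fun p hp' => hzJ p (hCT hp')) γ (hreg γ hγ).1 m' hm1'
      ⟨p0, p0.2, hp0.1, hp0'.1⟩
    obtain ⟨ρ, hρ⟩ := hLIM K F hF
    have e3 : ∀ᶠ p : C in cofinite, F.evalEval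
        (eval (vec (p : RatPt I)) (m 1) / eval (vec (p : RatPt I)) (m 0))
        (eval (vec (γ p)) (m' 1) / eval (vec (γ p)) (m' 0)) = 0 := by
      filter_upwards [e1, e2] with p h1 h2
      exact hFz p p.2 h1.1 h2.1
    have e1' : ∀ᶠ p : C in cofinite, |logHeight (vec (p : RatPt I)) -
        logHeight₁ (eval (vec (p : RatPt I)) (m 1) / eval (vec (p : RatPt I)) (m 0))| ≤ c0 := by
      filter_upwards [e1] with p h1
      rw [abs_sub_comm]; exact h1.2
    have e2' : ∀ᶠ p : C in cofinite, |logHeight (vec (γ p)) -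
        logHeight₁ (eval (vec (γ p)) (m' 1) / eval (vec (γ p)) (m' 0))| ≤ c' := by
      filter_upwards [e2] with p h1
      rw [abs_sub_comm]; exact h1.2
    have t1 := tendsto_pert e1' ht1
    have t2 := tendsto_pert e2' (ht γ)
    obtain ⟨h1, h2⟩ := hρ C cofinite _ _ e3 t1 t2
    refine ⟨ρ, ratio_pert (e2.mono fun p h => h.2) (e1.mono fun p h => h.2) t1 h2, ?_⟩
    have hρ0 : 0 ≤ ρ := ge_of_tendsto' h2 fun k => div_nonneg (zero_le_logHeight₁ _) (zero_le_logHeight₁ _)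
    refine h1.trans ?_
    gcongr
  choose! ρ hρ hρD using hlim
  have hρpos : ∀ γ ∈ Γ0, 0 < ρ γ := by
    intro γ hγ
    have h1 := hρD γ hγ
    have hD0 : (0 : ℝ) ≤ D := by positivity
    by_contra hcon
    push Not at hcon
    nlinarith [mul_nonneg_of_nonpos_of_nonpos hcon (neg_nonpos.2 hD0)]
  have hΓ'0 : Γ' ≤ Γ0 := hΓ'Γ.trans hΓ
  -- multiplicativity
  have hmul : ∀ γ ∈ Γ0, ∀ γ' ∈ Γ', ρ (γ * γ') = ρ γ * ρ γ' := by
    intro γ hγ γ' hγ'
    set f : C → C := fun p => ⟨γ' p, hC γ' hγ' p p.2⟩ with hf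
    have hfinj : Function.Injective f := by
      intro p q h
      apply Subtype.ext
      exact γ'.injective (congrArg Subtype.val h)
    have hft : Tendsto f cofinite cofinite := hfinj.tendsto_cofinite
    have h1 : Tendsto (fun p : C => logHeight (vec (γ (γ' p))) / logHeight (vec (γ' p)) *
        (logHeight (vec (γ' p)) / logHeight (vec (p : RatPt I)))) cofinite (𝓝 (ρ γ * ρ γ')) :=
      ((hρ γ hγ).comp hft).mul (hρ γ' (hΓ'0 hγ'))
    have h2 := hρ (γ * γ') (mul_mem hγ (hΓ'0 hγ'))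
    refine tendsto_nhds_unique h2 (h1.congr' ?_)
    filter_upwards [(ht γ').eventually_gt_atTop 0] with p hp'
    rw [Equiv.Perm.mul_apply]
    field_simp
  have hone : ρ 1 = 1 := by
    have h1 := hρ 1 (one_mem _)
    refine tendsto_nhds_unique h1 (tendsto_const_nhds.congr' ?_)
    filter_upwards [ht1.eventually_gt_atTop 0] with p hp'
    rw [Equiv.Perm.coe_one, id, div_self hp'.ne']
  have hge : ∀ γ ∈ Γ', 1 ≤ ρ γ := by
    intro γ hγ
    by_contra hlt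
    push Not at hlt
    have h1 : ∀ k : ℕ, ρ (γ ^ k) = ρ γ ^ k := by
      intro k
      induction k with
      | zero => simpa using hone
      | succ k ih => rw [pow_succ, hmul _ (pow_mem (hΓ'0 hγ) k) _ hγ, ih, pow_succ]
    have h2 : ∀ k : ℕ, 1 ≤ ρ γ ^ k * D := fun k => by
      rw [← h1 k]; exact hρD _ (pow_mem (hΓ'0 hγ) k)
    have h3 : Tendsto (fun k : ℕ => ρ γ ^ k * D) atTop (𝓝 (0 * D)) :=
      (tendsto_pow_atTop_nhds_zero_of_lt_one (hρpos γ (hΓ'0 hγ)).le hlt).mul_const _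
    rw [zero_mul] at h3
    have h4 := ge_of_tendsto' h3 h2
    linarith
  have hρ1 : ∀ γ ∈ Γ', ρ γ = 1 := by
    intro γ hγ
    have h1 := hge γ hγ
    have h2 := hge γ⁻¹ (inv_mem hγ)
    have h3 := hmul γ (hΓ'0 hγ) γ⁻¹ (inv_mem hγ)
    rw [mul_inv_cancel, hone] at h3
    nlinarith
  -- the relation
  have hrl : ∀ γ ∈ Γ0, ∑ i, ρ (P i * γ) = ∑ j, ρ (Q j * γ) := by
    intro γ hγ
    have hPm : ∀ i, P i ∈ Γ0 := fun i => Subgroup.subset_closure (Or.inl ⟨i, rfl⟩)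
    have hQm : ∀ j, Q j ∈ Γ0 := fun j => Subgroup.subset_closure (Or.inr ⟨j, rfl⟩)
    have h1 : Tendsto (fun p : C => ∑ i, logHeight (vec ((P i * γ) p)) / logHeight (vec (p : RatPt I)) -
        ∑ j, logHeight (vec ((Q j * γ) p)) / logHeight (vec (p : RatPt I))) cofinite
        (𝓝 (∑ i, ρ (P i * γ) - ∑ j, ρ (Q j * γ))) :=
      (tendsto_finsetSum _ fun i _ => hρ _ (mul_mem (hPm i) hγ)).sub
        (tendsto_finsetSum _ fun j _ => hρ _ (mul_mem (hQm j) hγ))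
    have h2 : Tendsto (fun p : C => ∑ i, logHeight (vec ((P i * γ) p)) / logHeight (vec (p : RatPt I)) -
        ∑ j, logHeight (vec ((Q j * γ) p)) / logHeight (vec (p : RatPt I))) cofinite (𝓝 0) := by
      rw [tendsto_zero_iff_abs_tendsto_zero]
      refine squeeze_zero' (Eventually.of_forall fun k => abs_nonneg _) ?_
        (Tendsto.div_atTop (tendsto_const_nhds (x := C1)) ht1)
      filter_upwards [ht1.eventually_gt_atTop 0] with p hpos
      simp only [Function.comp]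
      rw [← Finset.sum_div, ← Finset.sum_div, ← sub_div, abs_div, abs_of_pos hpos]
      gcongr
      exact hrel (γ p)
    have h3 := tendsto_nhds_unique h1 h2
    linarith
  -- finite index
  have hidx2 : Γ'.relIndex Γ0 ≠ 0 := Subgroup.relIndex_ne_zero_trans hidx' hidx
  set H : Subgroup Γ0 := Γ'.subgroupOf Γ0 with hH
  have hHi : H.index ≠ 0 := hidx2
  haveI : H.FiniteIndex := ⟨hHi⟩
  haveI : Fintype (Γ0 ⧸ H) := Fintype.ofFinite _
  set f : Γ0 → ℝ := fun γ => ρ γ with hf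
  have hfH : ∀ g h, h ∈ H → f (g * h) = f g := by
    intro g h hh
    have h1 : (h : Equiv.Perm (RatPt I)) ∈ Γ' := Subgroup.mem_subgroupOf.1 hh
    simp only [hf, Subgroup.coe_mul]
    rw [hmul _ g.2 _ h1, hρ1 _ h1, mul_one]
  set R : ℝ := ∑ c : Γ0 ⧸ H, f c.out with hR
  have hRpos : 0 < R := Finset.sum_pos (fun c _ => hρpos _ c.out.2) ⟨((1 : Γ0) : Γ0 ⧸ H), Finset.mem_univ _⟩
  have h1 : ∑ c : Γ0 ⧸ H, ∑ i, ρ (P i * (c.out : Γ0)) = r * R := by
    rw [Finset.sum_comm]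
    have : ∀ i, ∑ c : Γ0 ⧸ H, ρ (P i * (c.out : Γ0)) = R := fun i =>
      sum_coset H f hfH ⟨P i, Subgroup.subset_closure (Or.inl ⟨i, rfl⟩)⟩
    rw [Finset.sum_congr rfl fun i _ => this i]
    simp
  have h2 : ∑ c : Γ0 ⧸ H, ∑ j, ρ (Q j * (c.out : Γ0)) = s * R := by
    rw [Finset.sum_comm]
    have : ∀ j, ∑ c : Γ0 ⧸ H, ρ (Q j * (c.out : Γ0)) = R := fun j =>
      sum_coset H f hfH ⟨Q j, Subgroup.subset_closure (Or.inr ⟨j, rfl⟩)⟩
    rw [Finset.sum_congr rfl fun i _ => this i]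
    simp
  have h3 : (r : ℝ) * R = s * R := by
    rw [← h1, ← h2]
    exact Finset.sum_congr rfl fun c _ => hrl _ c.out.2
  exact hrs (by exact_mod_cast mul_right_cancel₀ hRpos.ne' h3)


/-- the images of a set on a curve lie on curves -/
lemma move_curve (hN : S_NULL) (hGRB : S_GRB) (hGRT : S_GRT) (hDIM : S_DIM) {γ : RatPt I → RatPt I}
    (hγ : RegK I γ) {T : Set (RatPt I)} (J : Ideal (Poly K n)) (hJ : Homog J) (m : Fin 2 → Poly K n)
    (hm : ∀ i, (m i).IsHomogeneous 1) (h0 : NoZero J m) (hT : ∀ q ∈ T, ∀ f ∈ J, eval (vec q) f = 0) :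
    ∃ (J : Ideal (Poly K n)) (m : Fin 2 → Poly K n) (c : ℝ), Homog J ∧ (∀ i, (m i).IsHomogeneous 1) ∧ NoZero J m ∧
      (∀ q ∈ T, ∀ f ∈ J, eval (vec (γ q)) f = 0) ∧
      ∀ q ∈ T, |logHeight ![eval (vec (γ q)) (m 0), eval (vec (γ q)) (m 1)] - logHeight (vec (γ q))| ≤ c := by
  obtain ⟨k, e, A, hA1, hA2, hA3⟩ := hγ
  obtain ⟨J', hJ', hG', hz⟩ := hGRT K n J hJ (hGRB K n J hJ m hm h0) k e A hA1
  obtain ⟨m', hm1, hm0⟩ := hDIM K n J' hJ' hG'
  obtain ⟨C, hC⟩ := MZ.proj hN hJ' hm1 hm0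
  have hzero : ∀ q ∈ T, ∀ f ∈ J', eval (vec (γ q)) f = 0 := by
    intro q hq f hf
    obtain ⟨α, i, hα⟩ := hA3 q
    obtain ⟨b, hb⟩ := hA2 q α
    have hb0 : b ≠ 0 := by
      rintro rfl
      exact hα (by rw [hb i, zero_mul])
    have h2 : (fun i => eval (vec q) (A α i)) = b • vec (γ q) := by
      funext j
      rw [hb j]; rfl
    rw [← one_smul K (vec (γ q)), eval_smul_sum]
    refine Finset.sum_eq_zero fun t _ => ?_
    have h1 := hT q hq _ (hz f hf t α)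
    rw [eval_bind, h2, eval_smul_hom (homogeneousComponent_isHomogeneous t f)] at h1
    rw [(mul_eq_zero.1 h1).resolve_left (pow_ne_zero _ hb0), mul_zero]
  exact ⟨J', m', C, hJ', hm1, hm0, hzero, fun q hq => hC _ (hzero q hq)⟩

theorem curveD (hN : S_NULL) (hGRB : S_GRB) (hGRT : S_GRT) (hDIM : S_DIM) (hREGC : S_REGC) (hZCR : S_ZCR)
    (hCOMP : S_COMP) (hIRRF : S_IRRF) (hLIM : S_LIM)
    {r s : ℕ} (hrs : r ≠ s) (P : Fin r → Equiv.Perm (RatPt I)) (Q : Fin s → Equiv.Perm (RatPt I))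
    (hP : ∀ i, RegK I (P i) ∧ RegK I (P i).symm) (hQ : ∀ j, RegK I (Q j) ∧ RegK I (Q j).symm)
    {C1 : ℝ} (hrel : ∀ p, |∑ i, logHeight (vec (P i p)) - ∑ j, logHeight (vec (Q j p))| ≤ C1)
    (Γ : Subgroup (Equiv.Perm (RatPt I))) (hΓ : Γ ≤ Subgroup.closure (Set.range P ∪ Set.range Q))
    (hidx : Γ.relIndex (Subgroup.closure (Set.range P ∪ Set.range Q)) ≠ 0)
    (T : Set (RatPt I)) (hTinf : T.Infinite) (hT : ∀ γ ∈ Γ, ∀ y ∈ T, γ y ∈ T)
    (J : Ideal (Poly K n)) (hJ : Homog J) (m : Fin 2 → Poly K n)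
    (hm : ∀ i, (m i).IsHomogeneous 1) (h0 : NoZero J m) (hTJ : ∀ q ∈ T, ∀ f ∈ J, eval (vec q) f = 0) : False := by
  refine core hREGC hZCR hCOMP hIRRF hLIM hrs P Q hP hQ hrel Γ hΓ hidx T hTinf hT fun γ hγ => ?_
  have hreg : RegK I γ ∧ RegK I γ.symm := closure_reg hREGC (by
    rintro g (⟨i, rfl⟩ | ⟨j, rfl⟩)
    · exact hP i
    · exact hQ j) hγ
  exact move_curve hN hGRB hGRT hDIM hreg.1 J hJ m hm h0 hTJ

end Curve

end Pool.Agent.H55.MG
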