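import Pool.Agent.H55.MG.Stm2
import Pool.Agent.H55.MZ.NORM

/-! Stub DIM of project MG (helper64). -/

set_option autoImplicit false

open MvPolynomial

namespace Pool.Agent.H55.MG.DIM

open Pool.Agent.H55.MZ (Poly NoZero Homog)
open Pool.Agent.H55.MZ.NORM (aeval_scale)

variable {K : Type} [Field K] {n : ℕ}

/-- one linear form less -/
lemma reduce [Infinite K] (J : Ideal (Poly K n)) {k : ℕ} (ℓ : Fin (k + 1) → Poly K n)
    (hℓ : ∀ i, (ℓ i).IsHomogeneous 1) (h0 : NoZero J ℓ) {s : ℕ} (hsz : s ≠ 0)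
    (A : MvPolynomial (Fin (k + 1)) K) (hAh : A.IsHomogeneous s) (hA0 : A ≠ 0) (hAm : aeval ℓ A ∈ J) :
    ∃ m : Fin k → Poly K n, (∀ i, (m i).IsHomogeneous 1) ∧ NoZero J m := by
  obtain ⟨a, ha⟩ : ∃ a, eval a A ≠ 0 := by
    by_contra hcon
    push Not at hcon
    exact hA0 (hAh.eq_zero_of_forall_eval_eq_zero hcon)
  obtain ⟨i₀, hi₀⟩ : ∃ i, a i ≠ 0 := by
    by_contra hcon
    push Not at hcon
    apply ha
    have h1 := aeval_scale (R := K) A hAh a 0
    rw [zero_pow hsz, mul_zero] at h1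
    have h2 : (fun i => algebraMap K K (a i) * 0) = a := by
      ext i; simp [hcon i]
    rw [h2] at h1
    rw [← coe_aeval_eq_eval]
    exact h1
  refine ⟨fun j => C (a i₀) * ℓ (i₀.succAbove j) - C (a (i₀.succAbove j)) * ℓ i₀, fun j => ?_, ?_⟩
  · exact ((hℓ _).C_mul _).sub ((hℓ _).C_mul _)
  · set m : Fin k → Poly K n :=
      fun j => C (a i₀) * ℓ (i₀.succAbove j) - C (a (i₀.succAbove j)) * ℓ i₀ with hm
    set Q := J ⊔ Ideal.span (Set.range m) with hQ
    have hrel : ∀ i, Ideal.Quotient.mk Q (ℓ i) =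
        algebraMap K (Poly K n ⧸ Q) (a i) *
          (algebraMap K (Poly K n ⧸ Q) (a i₀)⁻¹ * Ideal.Quotient.mk Q (ℓ i₀)) := by
      intro i
      have hCm : ∀ x : K, algebraMap K (Poly K n ⧸ Q) x = Ideal.Quotient.mk Q (C x) := fun x => rfl
      rcases eq_or_ne i i₀ with rfl | hne
      · rw [← mul_assoc, ← map_mul, mul_inv_cancel₀ hi₀, map_one, one_mul]
      · obtain ⟨j, rfl⟩ := Fin.exists_succAbove_eq hne
        have h1 : m j ∈ Q := Ideal.mem_sup_right (Ideal.subset_span ⟨j, rfl⟩)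
        have h2 : Ideal.Quotient.mk Q (m j) = 0 := Ideal.Quotient.eq_zero_iff_mem.mpr h1
        rw [hm] at h2
        simp only [map_sub, map_mul, sub_eq_zero] at h2
        rw [← hCm, ← hCm] at h2
        have h3 : algebraMap K (Poly K n ⧸ Q) (a i₀)⁻¹ * algebraMap K (Poly K n ⧸ Q) (a i₀) = 1 := by
          rw [← map_mul, inv_mul_cancel₀ hi₀, map_one]
        calc Ideal.Quotient.mk Q (ℓ (i₀.succAbove j))
            = (algebraMap K (Poly K n ⧸ Q) (a i₀)⁻¹ * algebraMap K (Poly K n ⧸ Q) (a i₀)) *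
              Ideal.Quotient.mk Q (ℓ (i₀.succAbove j)) := by rw [h3, one_mul]
          _ = _ := by rw [mul_assoc, h2]; ring
    set r := algebraMap K (Poly K n ⧸ Q) (a i₀)⁻¹ * Ideal.Quotient.mk Q (ℓ i₀) with hr
    have hrs : r ^ s = 0 := by
      have h1 := aeval_scale (R := Poly K n ⧸ Q) A hAh a r
      have h2 : (fun i => algebraMap K (Poly K n ⧸ Q) (a i) * r) = fun i => Ideal.Quotient.mk Q (ℓ i) := by
        ext i; exact (hrel i).symm
      rw [h2] at h1
      have h3 : (aeval fun i => Ideal.Quotient.mk Q (ℓ i)) A = Ideal.Quotient.mk Q (aeval ℓ A) := by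
        have := (MvPolynomial.map_aeval ℓ (Ideal.Quotient.mk Q) A)
        rw [this, aeval_def]
        rfl
      rw [h3, Ideal.Quotient.eq_zero_iff_mem.mpr (Ideal.mem_sup_left hAm)] at h1
      have h4 : algebraMap K (Poly K n ⧸ Q) (eval a A)⁻¹ * algebraMap K (Poly K n ⧸ Q) (eval a A) = 1 := by
        rw [← map_mul, inv_mul_cancel₀ ha, map_one]
      calc r ^ s = (algebraMap K (Poly K n ⧸ Q) (eval a A)⁻¹ * algebraMap K (Poly K n ⧸ Q) (eval a A)) * r ^ s := by
            rw [h4, one_mul]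
        _ = 0 := by rw [mul_assoc, ← h1, mul_zero]
    have hℓr : ∀ i, ℓ i ∈ Q.radical := by
      intro i
      refine ⟨s, ?_⟩
      rw [← Ideal.Quotient.eq_zero_iff_mem, map_pow, hrel i, mul_pow, hrs, mul_zero]
    intro l
    have h1 : (X l : Poly K n) ∈ (J ⊔ Ideal.span (Set.range ℓ)).radical := h0 l
    have h2 : J ⊔ Ideal.span (Set.range ℓ) ≤ Q.radical := by
      refine sup_le ?_ ?_
      · exact le_trans le_sup_left Ideal.le_radical
      · rw [Ideal.span_le]
        rintro _ ⟨i, rfl⟩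
        exact hℓr i
    have h3 := Ideal.radical_mono h2 h1
    rw [Ideal.radical_idem] at h3
    exact h3

/-- the exponents of the monomials -/
noncomputable def mon (k s : ℕ) (p : Fin (s + 1) × Fin (s + 1)) : Fin (k + 3) →₀ ℕ :=
  Finsupp.single 0 (p.1 : ℕ) + Finsupp.single 1 (p.2 : ℕ) + Finsupp.single 2 (2 * s - p.1 - p.2)

lemma mon_inj (k s : ℕ) : Function.Injective (mon k s) := by
  intro p q h
  have e01 : (0 : Fin (k + 3)) ≠ 1 := by
    intro h; have := congrArg Fin.val h; simp at this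
  have e02 : (0 : Fin (k + 3)) ≠ 2 := by
    intro h; have := congrArg Fin.val h
    simp at this
    rw [Nat.mod_eq_of_lt (by omega)] at this
    omega
  have e12 : (1 : Fin (k + 3)) ≠ 2 := by
    intro h; have := congrArg Fin.val h
    simp at this
    rw [Nat.mod_eq_of_lt (by omega)] at this
    omega
  have h0 := DFunLike.congr_fun h 0
  have h1 := DFunLike.congr_fun h 1
  simp only [mon, Finsupp.add_apply, Finsupp.single_eq_same, Finsupp.single_eq_of_ne e01,
    Finsupp.single_eq_of_ne e02, add_zero, zero_add, Finsupp.single_eq_of_ne e01.symm,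
    Finsupp.single_eq_of_ne e12] at h0 h1
  exact Prod.ext (Fin.ext h0) (Fin.ext h1)

lemma mon_deg (k s : ℕ) (p : Fin (s + 1) × Fin (s + 1)) : (mon k s p).degree = 2 * s := by
  unfold mon
  rw [map_add, map_add, Finsupp.degree_single, Finsupp.degree_single, Finsupp.degree_single]
  have h1 := p.1.2
  have h2 := p.2.2
  omega

/-- forms of degree `2 s` in the first three variables -/
noncomputable def Aof (K : Type) [Field K] (k s : ℕ) :
    (Fin (s + 1) × Fin (s + 1) → K) →ₗ[K] MvPolynomial (Fin (k + 3)) K :=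
  Fintype.linearCombination K (fun p => monomial (mon k s p) (1 : K))

lemma Aof_inj (k s : ℕ) : Function.Injective (Aof K k s) := by
  have h1 := (basisMonomials (Fin (k + 3)) K).linearIndependent.comp (mon k s) (mon_inj k s)
  rw [coe_basisMonomials] at h1
  exact h1.fintypeLinearCombination_injective

lemma Aof_hom (k s : ℕ) (w : Fin (s + 1) × Fin (s + 1) → K) : (Aof K k s w).IsHomogeneous (2 * s) := by
  unfold Aof
  rw [Fintype.linearCombination_apply]
  refine IsHomogeneous.sum _ _ _ fun p _ => ?_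
  rw [smul_monomial]
  exact isHomogeneous_monomial _ (mon_deg k s p)

lemma step [Infinite K] (J : Ideal (Poly K n)) (hG : Gr J) {k : ℕ} (ℓ : Fin (k + 3) → Poly K n)
    (hℓ : ∀ i, (ℓ i).IsHomogeneous 1) (h0 : NoZero J ℓ) :
    ∃ m : Fin (k + 2) → Poly K n, (∀ i, (m i).IsHomogeneous 1) ∧ NoZero J m := by
  obtain ⟨c, hc⟩ := hG
  set s : ℕ := 2 * c + 1 with hs
  let f : (Fin (s + 1) × Fin (s + 1) → K) →ₗ[K] Poly K n := (aeval ℓ).toLinearMap ∘ₗ Aof K k s
  have hf : ∀ w, (f w).IsHomogeneous (2 * s) := by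
    intro w
    have h1 := (Aof_hom (K := K) k s w).aeval ℓ hℓ
    rw [one_mul] at h1
    exact h1
  have h1 := hc (2 * s) _ f hf
  set F : (Fin (s + 1) × Fin (s + 1) → K) →ₗ[K] (Poly K n ⧸ J) := (Ideal.Quotient.mkₐ K J).toLinearMap ∘ₗ f with hF
  have h2 := LinearMap.finrank_range_add_finrank_ker F
  have h3 : Module.finrank K (Fin (s + 1) × Fin (s + 1) → K) = (s + 1) * (s + 1) := by
    rw [Module.finrank_fintype_fun_eq_card, Fintype.card_prod, Fintype.card_fin]
  have h4 : c * (2 * s + 1) < (s + 1) * (s + 1) := by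
    rw [hs]; nlinarith
  have h5 : LinearMap.ker F ≠ ⊥ := by
    intro h
    rw [h, finrank_bot, add_zero, h3] at h2
    omega
  obtain ⟨w, hw, hw0⟩ := Submodule.exists_mem_ne_zero_of_ne_bot h5
  refine reduce J ℓ hℓ h0 (s := 2 * s) (by omega) (Aof K k s w) (Aof_hom k s w) ?_ ?_
  · intro h
    exact hw0 (Aof_inj k s (by rw [h, map_zero]))
  · have h6 : F w = 0 := hw
    exact Ideal.Quotient.eq_zero_iff_mem.1 h6

theorem t : S_DIM := by
  intro K _ _ n J _ hG
  have key : ∀ k : ℕ, (∃ ℓ : Fin (k + 2) → Poly K n, (∀ i, (ℓ i).IsHomogeneous 1) ∧ NoZero J ℓ) →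
      ∃ m : Fin 2 → Poly K n, (∀ i, (m i).IsHomogeneous 1) ∧ NoZero J m := by
    intro k
    induction k with
    | zero => exact fun h => h
    | succ k ih =>
      rintro ⟨ℓ, hℓ, h0⟩
      exact ih (step J hG ℓ hℓ h0)
  refine key n ⟨fun i => if h : (i : ℕ) < n + 1 then X ⟨i, h⟩ else 0, fun i => ?_, fun l => ⟨1, ?_⟩⟩
  · dsimp only
    by_cases h : (i : ℕ) < n + 1
    · rw [dif_pos h]
      exact isHomogeneous_X _ _
    · rw [dif_neg h]
      exact isHomogeneous_zero _ _ _
  · rw [pow_one]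
    refine Ideal.mem_sup_right (Ideal.subset_span ⟨⟨l, by omega⟩, ?_⟩)
    exact dif_pos l.2

end Pool.Agent.H55.MG.DIM
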