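import Pool.Agent.H55.MG.Stm

/-!
# Project MG: stub FORB (finitely many finite orbits)
-/

set_option autoImplicit false

namespace Pool.Agent.H55.MG.FORB

theorem t : S_FORB := by
  classical
  intro Y h hN r s hrs P Q C hC
  set Γ0 : Subgroup (Equiv.Perm Y) := Subgroup.closure (Set.range P ∪ Set.range Q) with hΓ0
  have hkey : ∀ y : Y, (MulAction.orbit Γ0 y).Finite → ∃ z ∈ MulAction.orbit Γ0 y, h z ≤ C := by
    intro y hfin
    set O : Finset Y := hfin.toFinset with hO
    have hmem : ∀ z, z ∈ O ↔ z ∈ MulAction.orbit Γ0 y := fun z => Set.Finite.mem_toFinset hfin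
    have hyO : y ∈ O := (hmem y).2 (MulAction.mem_orbit_self y)
    -- sums over the orbit
    have hsum : ∀ γ ∈ Γ0, ∑ z ∈ O, h (γ z) = ∑ z ∈ O, h z := by
      intro γ hγ
      refine Finset.sum_bij (fun z _ => γ z) ?_ ?_ ?_ ?_
      · intro z hz
        rw [hmem] at hz ⊢
        have := MulAction.mem_orbit_of_mem_orbit (⟨γ, hγ⟩ : Γ0) hz
        exact this
      · intro a _ b _ hab
        exact γ.injective hab
      · intro z hz
        rw [hmem] at hz
        have := MulAction.mem_orbit_of_mem_orbit (⟨γ⁻¹, inv_mem hγ⟩ : Γ0) hz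
        refine ⟨γ⁻¹ z, (hmem _).2 this, ?_⟩
        exact γ.apply_symm_apply z
      · intro z _; rfl
    have h1 : ∑ z ∈ O, (∑ i, h (P i z) - ∑ j, h (Q j z)) = ((r : ℝ) - s) * ∑ z ∈ O, h z := by
      rw [Finset.sum_sub_distrib, Finset.sum_comm, Finset.sum_comm (t := Finset.univ (α := Fin s))]
      rw [Finset.sum_congr rfl fun i _ => hsum (P i) (Subgroup.subset_closure (Or.inl ⟨i, rfl⟩))]
      rw [Finset.sum_congr rfl fun j _ => hsum (Q j) (Subgroup.subset_closure (Or.inr ⟨j, rfl⟩))]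
      simp only [Finset.sum_const, Finset.card_univ, Fintype.card_fin, nsmul_eq_mul]
      ring
    have h2 : |∑ z ∈ O, (∑ i, h (P i z) - ∑ j, h (Q j z))| ≤ O.card * C := by
      refine (Finset.abs_sum_le_sum_abs _ _).trans ?_
      refine (Finset.sum_le_sum fun z _ => hC z).trans ?_
      rw [Finset.sum_const, nsmul_eq_mul]
    have h3 : (1 : ℝ) ≤ |(r : ℝ) - s| := by
      have : (1 : ℤ) ≤ |(r : ℤ) - s| := Int.one_le_abs (sub_ne_zero.2 (by exact_mod_cast hrs))
      exact_mod_cast this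
    by_contra hcon
    push Not at hcon
    have hCnn : 0 ≤ C := (abs_nonneg _).trans (hC y)
    have h4 : O.card * C < ∑ z ∈ O, h z := by
      have : ∑ z ∈ O, C < ∑ z ∈ O, h z :=
        Finset.sum_lt_sum_of_nonempty ⟨y, hyO⟩ fun z hz => hcon z ((hmem z).1 hz)
      rwa [Finset.sum_const, nsmul_eq_mul] at this
    have h5 : 0 ≤ ∑ z ∈ O, h z := by
      have : (0 : ℝ) ≤ O.card * C := by positivity
      linarith
    rw [h1, abs_mul, abs_of_nonneg h5] at h2
    nlinarith
  have hB := hN C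
  refine Set.Finite.subset (s := ⋃ z ∈ {z | h z ≤ C ∧ (MulAction.orbit Γ0 z).Finite}, MulAction.orbit Γ0 z) ?_ ?_
  · exact (hB.subset fun z hz => hz.1).biUnion fun z hz => hz.2
  · intro y hy
    obtain ⟨z, hz, hzC⟩ := hkey y hy
    refine Set.mem_biUnion (x := z) ⟨hzC, ?_⟩ ?_
    · rw [MulAction.orbit_eq_iff.2 hz]; exact hy
    · rw [MulAction.orbit_eq_iff.2 hz]; exact MulAction.mem_orbit_self y

end Pool.Agent.H55.MG.FORB
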