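import Pool.Agent.H55.MG.Crv2
import Pool.Agent.H55.MZ.Loc

/-!
# Project MG: assembly
-/

set_option autoImplicit false

open MvPolynomial Filter Topology Height
open scoped LinearAlgebra.Projectivization

namespace Pool.Agent.H55.MG

open Pool.Agent.H55.MZ (Poly NoZero Homog Pt Par S_NULL S_NORM eval_smul_hom eval_bind Near localIdeal pointIdeal)

/-- finite orbits under a subgroup of finite index -/
lemma orb_fin {Y : Type} {Γ Γ0 : Subgroup (Equiv.Perm Y)} (hΓ : Γ ≤ Γ0) (hidx : Γ.relIndex Γ0 ≠ 0) {p : Y}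
    (h : {y | ∃ γ ∈ Γ, y = γ p}.Finite) : (MulAction.orbit Γ0 p).Finite := by
  classical
  set H : Subgroup Γ0 := Γ.subgroupOf Γ0 with hH
  have hHi : H.index ≠ 0 := hidx
  haveI : H.FiniteIndex := ⟨hHi⟩
  haveI : Finite (Γ0 ⧸ H) := inferInstance
  have h1 : (⋃ c : Γ0 ⧸ H, (fun y => (c.out : Γ0).1 y) '' {y | ∃ γ ∈ Γ, y = γ p}).Finite :=
    Set.finite_iUnion fun c => h.image _
  refine h1.subset ?_
  rintro _ ⟨γ, rfl⟩
  obtain ⟨k, hk⟩ := QuotientGroup.mk_out_eq_mul H γ
  refine Set.mem_iUnion.2 ⟨(γ : Γ0 ⧸ H), (k : Γ0)⁻¹.1 p, ⟨(k : Γ0)⁻¹.1, ?_, rfl⟩, ?_⟩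
  · exact inv_mem (Subgroup.mem_subgroupOf.1 k.2)
  · simp only
    rw [hk]
    change ((γ * (k : Γ0)).1 * (k : Γ0)⁻¹.1) p = γ.1 p
    rw [← Subgroup.coe_mul, mul_assoc, mul_inv_cancel, mul_one]

section Fin

variable {K : Type} [Field K] {n : ℕ} {I : Ideal (Poly K n)}

lemma mem_loc (hI : Homog I) {L : Type} [NormedField L] (σ : K →+* L) (x : Fin (n + 1) → L) (g : Poly K n) :
    g ∈ localIdeal I σ x ↔
      ∃ ε : ℝ, 0 < ε ∧ ∀ w : RatPt I, Nr σ (vec w) x ε → ∀ c : K, c ≠ 0 → eval (c • vec w) g = 0 := by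
  constructor
  · rintro ⟨ε, hε, h⟩
    refine ⟨ε, hε, fun w hw c hc => h _ ((vec_pt w).smul hI hc) ?_⟩
    exact MZ.Near.par (w := vec w) hw ⟨c, hc, rfl⟩
  · rintro ⟨ε, hε, h⟩
    refine ⟨ε, hε, fun w hw hn => ?_⟩
    obtain ⟨p, hp⟩ := exists_pt hI hw
    obtain ⟨c, hc, hpc⟩ := hp.symm
    rw [hpc]
    exact h p (MZ.Near.par hn hp) c hc

variable [NumberField K]

theorem main (hN : S_NULL) (hNO : S_NORM) (hREGC : S_REGC) (hZCR : S_ZCR) (hCOMP : S_COMP) (hIRRF : S_IRRF)
    (hLIM : S_LIM) (hHREL : S_HREL) (hFORB : S_FORB) (hGDM : S_GDM) (hREC : S_REC) (hACT : S_ACT)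
    (hp : I.IsPrime) (hI : Homog I)
    (ℓ : Fin 3 → Poly K n) (hℓ : ∀ i, (ℓ i).IsHomogeneous 1) (hℓ0 : NoZero I ℓ)
    {r s : ℕ} (hrs : r ≠ s) (P : Fin r → Equiv.Perm (RatPt I)) (Q : Fin s → Equiv.Perm (RatPt I))
    (hP : ∀ i, Regular I (P i) ∧ Regular I (P i).symm) (hQ : ∀ j, Regular I (Q j) ∧ Regular I (Q j).symm)
    (hPQ : LinEquiv I (fun i => P i) (fun j => Q j)) :
    {p : RatPt I | (MulAction.orbit (Subgroup.closure (Set.range P ∪ Set.range Q)) p).Finite}.Finite ∧
    (∀ (L : Type) [NormedField L] (σ : K →+* L),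
      {J : Ideal (Poly K n) | ∃ x : Fin (n + 1) → L, x ≠ 0 ∧ J = localIdeal I σ x}.Finite ↔
        ∀ p : RatPt I, (MulAction.orbit (Subgroup.closure (Set.range P ∪ Set.range Q)) p).Infinite →
          localIdeal I σ (fun i => σ (vec p i)) = I) ∧
    ∃ N : ℕ, N ≠ 0 ∧ ∀ (L : Type) [NontriviallyNormedField L] [IsUltrametricDist L] [ProperSpace L] (σ : K →+* L),
      ‖(N : L)‖ = 1 → ∀ x : Fin (n + 1) → L, x ≠ 0 →
        localIdeal I σ x = ⊤ ∨ localIdeal I σ x = I ∨
        ∃ p : RatPt I, (MulAction.orbit (Subgroup.closure (Set.range P ∪ Set.range Q)) p).Finite ∧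
          (∃ c : L, c ≠ 0 ∧ x = fun i => c * σ (vec p i)) ∧ localIdeal I σ x = pointIdeal (vec p) := by
  classical
  set S : Set (Equiv.Perm (RatPt I)) := Set.range P ∪ Set.range Q with hS
  set Γ0 : Subgroup (Equiv.Perm (RatPt I)) := Subgroup.closure S with hΓ0
  have hPr : ∀ i, RegK I (P i) ∧ RegK I (P i).symm := fun i => ⟨(hP i).1.regK, (hP i).2.regK⟩
  have hQr : ∀ j, RegK I (Q j) ∧ RegK I (Q j).symm := fun j => ⟨(hQ j).1.regK, (hQ j).2.regK⟩
  have hSr : ∀ g ∈ S, RegK I g ∧ RegK I g.symm := by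
    rintro g (⟨i, rfl⟩ | ⟨j, rfl⟩)
    · exact hPr i
    · exact hQr j
  have hreg : ∀ γ ∈ Γ0, RegK I γ ∧ RegK I γ.symm := fun γ hγ => closure_reg hREGC hSr hγ
  obtain ⟨C1, hC1⟩ := hHREL K n I hI r s (fun i => P i) (fun j => Q j) hPQ
  have hTfin : {p : RatPt I | (MulAction.orbit Γ0 p).Finite}.Finite :=
    hFORB (RatPt I) (fun p => logHeight (vec p)) (northcott_pt I) r s hrs P Q C1 hC1
  set T : Finset (Fin (n + 1) → K) := hTfin.toFinset.image vec with hT
  have hTpt : ∀ t ∈ T, Pt I t := by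
    intro t ht
    obtain ⟨p, -, rfl⟩ := Finset.mem_image.1 ht
    exact vec_pt p
  -- the main lemma
  have hcurve : ∀ (Γ : Subgroup (Equiv.Perm (RatPt I))), Γ ≤ Γ0 → Γ.relIndex Γ0 ≠ 0 →
      ∀ (U : Set (RatPt I)) (p : RatPt I), (MulAction.orbit Γ0 p).Infinite → p ∈ U → (∀ γ ∈ Γ, ∀ y ∈ U, γ y ∈ U) →
      ∀ g : Poly K n, (∀ q ∈ U, ∀ c : K, c ≠ 0 → eval (c • vec q) g = 0) → g ∈ I := by
    intro Γ hΓ hidx U p hpinf hpU hU g hg
    have hUinf : U.Infinite := by
      intro hfin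
      apply hpinf
      refine orb_fin hΓ hidx (hfin.subset ?_)
      rintro _ ⟨γ, hγ, rfl⟩
      exact hU γ hγ p hpU
    rw [← sum_homogeneousComponent g]
    refine Ideal.sum_mem _ fun t _ => ?_
    exact curve hN hNO hREGC hZCR hCOMP hIRRF hLIM hp hI ℓ hℓ hℓ0 hrs P Q hPr hQr hC1 Γ hΓ hidx U hUinf hU
      (homogeneousComponent_isHomogeneous t g) fun q hq => MZ.comp_zero (hg q hq) t
  -- the alternatives
  have halt : ∀ {L : Type} [NormedField L] (σ : K →+* L),
      (∀ p : RatPt I, (MulAction.orbit Γ0 p).Infinite → localIdeal I σ (fun i => σ (vec p i)) = I) →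
      ∀ x : Fin (n + 1) → L, x ≠ 0 → localIdeal I σ x = ⊤ ∨ localIdeal I σ x = I ∨
        ∃ p : RatPt I, (MulAction.orbit Γ0 p).Finite ∧
          (∃ c : L, c ≠ 0 ∧ x = fun i => c * σ (vec p i)) ∧ localIdeal I σ x = pointIdeal (vec p) := by
    intro L _ σ hall x hx
    have hout : ∀ y : Fin (n + 1) → K, Pt I y → (∀ t ∈ T, ¬ Par t y) →
        localIdeal I σ (fun i => σ (y i)) = I := by
      intro y hy hyT
      obtain ⟨p, hp'⟩ := exists_pt hI hy
      have hinf : (MulAction.orbit Γ0 p).Infinite := by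
        intro hfin
        exact hyT (vec p) (Finset.mem_image.2 ⟨p, (Set.Finite.mem_toFinset hTfin).2 hfin, rfl⟩) hp'.symm
      refine Eq.trans ?_ (hall p hinf)
      ext g
      rw [mem_loc hI, mem_loc hI]
      obtain ⟨a, ha, hya⟩ := hp'
      have ha' : σ a ≠ 0 := (map_ne_zero σ).2 ha
      have hapos : 0 < ‖σ a‖ := norm_pos_iff.2 ha'
      constructor
      · rintro ⟨ε, hε, h⟩
        refine ⟨ε * ‖σ a‖, by positivity, fun w hw => h w ?_⟩
        obtain ⟨c, hc, hn⟩ := hw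
        refine ⟨c / σ a, div_ne_zero hc ha', fun i => ?_⟩
        have h1 : c / σ a * σ (vec w i) - σ (y i) = (c * σ (vec w i) - σ (vec p i)) / σ a := by
          rw [hya]; simp only [Pi.smul_apply, smul_eq_mul, map_mul]; field_simp
        rw [h1, norm_div, div_lt_iff₀ hapos]
        exact hn i
      · rintro ⟨ε, hε, h⟩
        refine ⟨ε / ‖σ a‖, by positivity, fun w hw => h w ?_⟩
        obtain ⟨c, hc, hn⟩ := hw
        refine ⟨σ a * c, mul_ne_zero ha' hc, fun i => ?_⟩
        have h1 : σ a * c * σ (vec w i) - σ (vec p i) = σ a * (c * σ (vec w i) - σ (y i)) := by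
          rw [hya]; simp only [Pi.smul_apply, smul_eq_mul, map_mul]; ring
        rw [h1, norm_mul]
        have := hn i
        rw [lt_div_iff₀ hapos] at this
        linarith
    rcases MZ.alternatives I T hTpt σ hout x hx hI with h | h | ⟨t, ht, h1, h2⟩
    · exact Or.inl h
    · exact Or.inr (Or.inl h)
    · obtain ⟨p, hpT, rfl⟩ := Finset.mem_image.1 ht
      exact Or.inr (Or.inr ⟨p, (Set.Finite.mem_toFinset hTfin).1 hpT, h1, h2⟩)
  refine ⟨hTfin, ?_, ?_⟩
  · intro L _ σ
    constructor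
    · intro hF p hpinf
      refine le_antisymm ?_ (MZ.le_localIdeal I σ _)
      -- the stabilizer of the local ideal
      set f : Equiv.Perm (RatPt I) → Ideal (Poly K n) := fun γ => localIdeal I σ (fun i => σ (vec (γ p) i)) with hf
      have hact : ∀ φ ∈ Γ0, ∀ a b : RatPt I,
          localIdeal I σ (fun i => σ (vec a i)) = localIdeal I σ (fun i => σ (vec b i)) →
          localIdeal I σ (fun i => σ (vec (φ a) i)) = localIdeal I σ (fun i => σ (vec (φ b) i)) := by
        intro φ hφ a b hab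
        ext g
        rw [mem_loc hI, mem_loc hI]
        refine hACT K n I φ (hreg φ hφ).1 (hreg φ hφ).2 L σ a b (fun g => ?_) g
        rw [← mem_loc hI, ← mem_loc hI, hab]
      let Γ : Subgroup (Equiv.Perm (RatPt I)) :=
        { carrier := {γ | γ ∈ Γ0 ∧ f γ = f 1}
          one_mem' := ⟨one_mem _, rfl⟩
          mul_mem' := by
            rintro a b ⟨ha, ha'⟩ ⟨hb, hb'⟩
            refine ⟨mul_mem ha hb, ?_⟩
            rw [← ha']
            exact hact a ha (b p) p hb'
          inv_mem' := by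
            rintro a ⟨ha, ha'⟩
            refine ⟨inv_mem ha, ?_⟩
            have := hact a⁻¹ (inv_mem ha) (a p) p ha'
            rw [show a⁻¹ (a p) = p from a.symm_apply_apply p] at this
            exact this.symm }
      have hΓle : Γ ≤ Γ0 := fun γ hγ => hγ.1
      have hidx : Γ.relIndex Γ0 ≠ 0 := by
        set H : Subgroup Γ0 := Γ.subgroupOf Γ0 with hH
        have hfr : (Set.range fun γ : Γ0 => f γ).Finite := by
          refine hF.subset ?_
          rintro _ ⟨γ, rfl⟩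
          refine ⟨fun i => σ (vec ((γ : Equiv.Perm (RatPt I)) p) i), ?_, rfl⟩
          intro h0
          apply vec_ne ((γ : Equiv.Perm (RatPt I)) p)
          funext i
          exact (map_eq_zero σ).1 (congrFun h0 i)
        haveI := hfr.to_subtype
        have hfin : Finite (Γ0 ⧸ H) := by
          refine Finite.of_injective (fun c : Γ0 ⧸ H => (⟨f c.out, c.out, rfl⟩ : Set.range fun γ : Γ0 => f γ)) ?_
          intro c c' h
          have h1 : f (c.out : Γ0) = f (c'.out : Γ0) := congrArg Subtype.val h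
          rw [← QuotientGroup.out_eq' c, ← QuotientGroup.out_eq' c']
          rw [QuotientGroup.eq]
          rw [Subgroup.mem_subgroupOf]
          have h2 : (((c.out : Γ0)⁻¹ * (c'.out : Γ0) : Γ0) : Equiv.Perm (RatPt I)) =
            (c.out : Γ0).1⁻¹ * (c'.out : Γ0).1 := rfl
          refine ⟨((c.out : Γ0)⁻¹ * (c'.out : Γ0) : Γ0).2, ?_⟩
          have h3 := hact (c.out : Γ0).1⁻¹ (inv_mem (c.out : Γ0).2) _ _ h1
          rw [show (c.out : Γ0).1⁻¹ ((c.out : Γ0).1 p) = p from (c.out : Γ0).1.symm_apply_apply p] at h3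
          rw [h2]
          exact h3.symm
        have := Subgroup.finiteIndex_of_finite_quotient (H := H)
        exact this.index_ne_zero
      intro g hg
      refine hcurve Γ hΓle hidx {y | ∃ γ ∈ Γ, y = γ p} p hpinf ⟨1, one_mem _, rfl⟩ ?_ g ?_
      · rintro γ hγ _ ⟨γ', hγ', rfl⟩
        exact ⟨γ * γ', mul_mem hγ hγ', rfl⟩
      · rintro _ ⟨γ, hγ, rfl⟩ c hc
        have h1 : g ∈ localIdeal I σ (fun i => σ (vec (γ p) i)) := by
          have : f γ = f 1 := hγ.2
          simp only [hf, Equiv.Perm.coe_one, id] at this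
          rw [this]; exact hg
        rw [mem_loc hI] at h1
        obtain ⟨ε, hε, h⟩ := h1
        exact h (γ p) (MZ.near_self _ hε) c hc
    · intro hall
      refine Set.Finite.subset (s := {⊤, I} ∪ (fun p : RatPt I => pointIdeal (vec p)) ''
        {p : RatPt I | (MulAction.orbit Γ0 p).Finite}) ?_ ?_
      · exact ((Set.finite_singleton I).insert ⊤).union (hTfin.image _)
      · rintro _ ⟨x, hx, rfl⟩
        rcases halt σ hall x hx with h | h | ⟨p, hp', -, h⟩
        · left; left; exact h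
        · left; right; exact h
        · right; exact ⟨p, hp', h.symm⟩
  · -- good places
    have hgood : ∀ g ∈ S, ∃ N : ℕ, N ≠ 0 ∧
        ∀ (L : Type) [NontriviallyNormedField L] [IsUltrametricDist L] (σ : K →+* L),
        ‖(N : L)‖ = 1 → GoodMap I σ g ∧ GoodMap I σ g.symm := by
      intro g hg
      have h1 : Regular I g ∧ Regular I g.symm := by
        rcases hg with ⟨i, rfl⟩ | ⟨j, rfl⟩
        · exact hP i
        · exact hQ j
      obtain ⟨N1, hN1, h2⟩ := hGDM K n I hI g h1.1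
      obtain ⟨N2, hN2, h3⟩ := hGDM K n I hI g.symm h1.2
      refine ⟨N1 * N2, mul_ne_zero hN1 hN2, ?_⟩
      intro L _ _ σ hL
      have hle : ∀ m : ℕ, ‖(m : L)‖ ≤ 1 := fun m => IsUltrametricDist.norm_natCast_le_one L m
      rw [Nat.cast_mul, norm_mul] at hL
      have a1 : ‖(N1 : L)‖ = 1 := by
        refine le_antisymm (hle _) ?_
        by_contra hlt
        push Not at hlt
        have := mul_le_mul (le_refl ‖(N1 : L)‖) (hle N2) (norm_nonneg _) (norm_nonneg _)
        linarith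
      have a2 : ‖(N2 : L)‖ = 1 := by
        rw [a1, one_mul] at hL; exact hL
      exact ⟨h2 L σ a1, h3 L σ a2⟩
    choose! N hN0 hNg using hgood
    have hSfin : S.Finite := (Set.finite_range P).union (Set.finite_range Q)
    refine ⟨∏ g ∈ hSfin.toFinset, N g, ?_, ?_⟩
    · rw [Finset.prod_ne_zero_iff]
      intro g hg
      exact hN0 g ((Set.Finite.mem_toFinset hSfin).1 hg)
    · intro L _ _ _ σ hL x hx
      have hle : ∀ m : ℕ, ‖(m : L)‖ ≤ 1 := fun m => IsUltrametricDist.norm_natCast_le_one L m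
      have hNL : ∀ g ∈ S, ‖(N g : L)‖ = 1 := by
        intro g hg
        have hg' : g ∈ hSfin.toFinset := (Set.Finite.mem_toFinset hSfin).2 hg
        rw [Nat.cast_prod, norm_prod, ← Finset.mul_prod_erase _ _ hg'] at hL
        refine le_antisymm (hle _) ?_
        by_contra hlt
        push Not at hlt
        have h1 : ∏ b ∈ hSfin.toFinset.erase g, ‖(N b : L)‖ ≤ 1 :=
          Finset.prod_le_one (fun _ _ => norm_nonneg _) fun b _ => hle _
        have := mul_le_mul (le_refl ‖(N g : L)‖) h1 (Finset.prod_nonneg fun _ _ => norm_nonneg _) (norm_nonneg _)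
        linarith
      refine halt σ ?_ x hx
      intro p hpinf
      refine le_antisymm ?_ (MZ.le_localIdeal I σ _)
      intro g hg
      rw [mem_loc hI] at hg
      obtain ⟨ε, hε, hg⟩ := hg
      have hp0 : (fun i => σ (vec p i)) ≠ 0 := by
        intro h0
        apply vec_ne p
        funext i
        exact (map_eq_zero σ).1 (congrFun h0 i)
      obtain ⟨δ, Γ, hδ, hδε, hΓ, hidx, hst⟩ := hREC K n I hI L σ S (fun g hg => hNg g hg L σ (hNL g hg))
        (fun i => σ (vec p i)) hp0 ε hε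
      refine hcurve Γ hΓ hidx {w | Nr σ (vec w) (fun i => σ (vec p i)) δ} p hpinf (MZ.near_self _ hδ) hst g ?_
      intro w hw c hc
      refine hg w ?_ c hc
      obtain ⟨a, ha, hn⟩ := hw
      exact ⟨a, ha, fun i => (hn i).trans_le hδε⟩

end Fin

end Pool.Agent.H55.MG
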