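import Pool.Agent.H55.MG.Fin
import Pool.Agent.H55.MG.Crv3

/-!
# Project MG: assembly in arbitrary dimension
-/

set_option autoImplicit false

open MvPolynomial Filter Topology Height
open scoped LinearAlgebra.Projectivization

namespace Pool.Agent.H55.MG

open Pool.Agent.H55.MZ (Poly NoZero Homog Pt Par S_NULL S_NORM eval_smul_hom eval_bind Near localIdeal pointIdeal)

/-- The variety of `J` has dimension at least two: no two linear forms are without common zero on it. -/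
def DimTwo {K : Type} [Field K] {n : ℕ} (J : Ideal (Poly K n)) : Prop :=
  ¬ ∃ m : Fin 2 → Poly K n, (∀ i, (m i).IsHomogeneous 1) ∧ NoZero J m

/-- The variety of `I` is irreducible of dimension at most two. -/
def IsSurface {K : Type} [Field K] {n : ℕ} (I : Ideal (Poly K n)) : Prop :=
  I.IsPrime ∧ ∃ ℓ : Fin 3 → Poly K n, (∀ i, (ℓ i).IsHomogeneous 1) ∧ NoZero I ℓ

section

variable {K : Type} [Field K] {n : ℕ} {I : Ideal (Poly K n)}

lemma NoZero.mono {J J' : Ideal (Poly K n)} (h : J ≤ J') {ι : Type} {p : ι → Poly K n} (h0 : NoZero J p) :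
    NoZero J' p := by
  intro l
  obtain ⟨M, hM⟩ := h0 l
  exact ⟨M, sup_le_sup_right h _ hM⟩

lemma dimTwo_eq [Infinite K] (hNO : S_NORM) (hI : Homog I) (hs : IsSurface I) {J : Ideal (Poly K n)} (hJ : Homog J)
    (hIJ : I ≤ J) (h : DimTwo J) : J = I := by
  obtain ⟨hp, ℓ, hℓ, hℓ0⟩ := hs
  refine le_antisymm ?_ hIJ
  intro g hg
  rw [← sum_homogeneousComponent g]
  refine Ideal.sum_mem _ fun t _ => ?_
  by_contra hcon
  obtain ⟨m, hm1, hm0⟩ := hNO K n I hp hI ℓ hℓ hℓ0 _ t (homogeneousComponent_isHomogeneous t g) hcon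
  refine h ⟨m, hm1, NoZero.mono (sup_le hIJ ?_) hm0⟩
  rw [Ideal.span_le]
  rintro _ rfl
  exact hJ g hg t

lemma homog_loc [Infinite K] (hI : Homog I) {L : Type} [NormedField L] (σ : K →+* L) (x : Fin (n + 1) → L) :
    Homog (localIdeal I σ x) := by
  intro g hg s
  rw [mem_loc hI] at hg ⊢
  obtain ⟨ε, hε, h⟩ := hg
  refine ⟨ε, hε, fun w hw c hc => ?_⟩
  rw [eval_smul_hom (homogeneousComponent_isHomogeneous s g), MZ.comp_zero (h w hw) s, mul_zero]

/-- the local ideal vanishes on a fixed neighbourhood -/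
lemma loc_unif (hI : Homog I) {L : Type} [NormedField L] (σ : K →+* L) (x : Fin (n + 1) → L) :
    ∃ ε : ℝ, 0 < ε ∧ ∀ w : RatPt I, Nr σ (vec w) x ε → ∀ g ∈ localIdeal I σ x, eval (vec w) g = 0 := by
  classical
  obtain ⟨S, hS⟩ := (isNoetherianRing_iff_ideal_fg (Poly K n)).1 inferInstance (localIdeal I σ x)
  have h1 : ∀ g ∈ S, ∃ ε : ℝ, 0 < ε ∧ ∀ w : RatPt I, Nr σ (vec w) x ε → eval (vec w) g = 0 := by
    intro g hg
    have : g ∈ localIdeal I σ x := by rw [← hS]; exact Ideal.subset_span hg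
    rw [mem_loc hI] at this
    obtain ⟨ε, hε, h⟩ := this
    exact ⟨ε, hε, fun w hw => by simpa using h w hw 1 one_ne_zero⟩
  choose! E hE hE' using h1
  obtain ⟨ε, hε, hle⟩ : ∃ ε : ℝ, 0 < ε ∧ ∀ g ∈ S, ε ≤ E g := by
    by_cases hSe : S.Nonempty
    · obtain ⟨g0, hg0, hmin⟩ := Finset.exists_min_image S E hSe
      exact ⟨E g0, hE g0 hg0, fun g hg => hmin g hg⟩
    · rw [Finset.not_nonempty_iff_eq_empty] at hSe
      exact ⟨1, one_pos, fun g hg => by simp [hSe] at hg⟩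
  refine ⟨ε, hε, fun w hw g hg => ?_⟩
  have h2 : localIdeal I σ x ≤ RingHom.ker (eval (vec w)) := by
    rw [← hS, Ideal.span_le]
    intro g hg
    obtain ⟨c, hc, hn⟩ := hw
    exact hE' g hg w ⟨c, hc, fun i => (hn i).trans_le (hle g hg)⟩
  exact h2 hg

lemma nr_mono {L : Type} [NormedField L] {σ : K →+* L} {w : Fin (n + 1) → K} {x : Fin (n + 1) → L} {ε δ : ℝ}
    (h : Nr σ w x δ) (hδ : δ ≤ ε) : Nr σ w x ε := by
  obtain ⟨c, hc, hn⟩ := h
  exact ⟨c, hc, fun i => (hn i).trans_le hδ⟩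

/-- a point near which there are only finitely many `K`-points -/
lemma isolated (hI : Homog I) {L : Type} [NormedField L] (σ : K →+* L) (x : Fin (n + 1) → L) (hx : x ≠ 0) {δ : ℝ}
    (hδ : 0 < δ) (hfin : {w : RatPt I | Nr σ (vec w) x δ}.Finite) :
    localIdeal I σ x = ⊤ ∨ ∃ p : RatPt I, (∃ c : L, c ≠ 0 ∧ x = fun i => c * σ (vec p i)) ∧
      localIdeal I σ x = pointIdeal (vec p) ∧ ∃ ε : ℝ, 0 < ε ∧ ∀ w : RatPt I, Nr σ (vec w) x ε → w = p := by
  classical
  have hex : ∀ w : RatPt I, ∃ ε : ℝ, 0 < ε ∧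
      ((∃ c : L, c ≠ 0 ∧ x = fun i => c * σ (vec w i)) ∨ ¬ Nr σ (vec w) x ε) := by
    intro w
    by_cases h : ∃ c : L, c ≠ 0 ∧ x = fun i => c * σ (vec w i)
    · exact ⟨1, one_pos, Or.inl h⟩
    · obtain ⟨ε, hε, h'⟩ := MZ.not_near (vec_ne w) h hx
      exact ⟨ε, hε, Or.inr h'⟩
  choose E hE hE' using hex
  obtain ⟨ε, hε, hle⟩ : ∃ ε : ℝ, 0 < ε ∧ ∀ w ∈ hfin.toFinset, ε ≤ E w := by
    by_cases hSe : hfin.toFinset.Nonempty
    · obtain ⟨g0, hg0, hmin⟩ := Finset.exists_min_image hfin.toFinset E hSe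
      exact ⟨E g0, hE g0, fun g hg => hmin g hg⟩
    · rw [Finset.not_nonempty_iff_eq_empty] at hSe
      exact ⟨1, one_pos, fun g hg => by simp [hSe] at hg⟩
  have hnear : ∀ w : RatPt I, Nr σ (vec w) x (min δ ε) → ∃ c : L, c ≠ 0 ∧ x = fun i => c * σ (vec w i) := by
    intro w hw
    rcases hE' w with h | h
    · exact h
    · exfalso
      refine h (nr_mono hw ((min_le_right _ _).trans (hle w ?_)))
      exact (Set.Finite.mem_toFinset hfin).2 (nr_mono hw (min_le_left _ _))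
  by_cases hB : ∃ p : RatPt I, ∃ c : L, c ≠ 0 ∧ x = fun i => c * σ (vec p i)
  · obtain ⟨p, c, hc, hxp⟩ := hB
    right
    have huniq : ∀ w : RatPt I, Nr σ (vec w) x (min δ ε) → w = p := by
      intro w hw
      obtain ⟨c', hc', hxw⟩ := hnear w hw
      apply eq_of_par
      have h1 : ∀ i, c' * σ (vec w i) = c * σ (vec p i) := fun i => by
        have := congrFun (hxw.symm.trans hxp) i
        simpa using this
      refine MZ.par_of_minors (vec_ne w) (vec_ne p) fun l m => ?_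
      apply σ.injective
      rw [map_mul, map_mul]
      apply mul_left_cancel₀ hc'
      have e1 := h1 l
      have e2 := h1 m
      linear_combination σ (vec p l) * e2 - σ (vec p m) * e1
    refine ⟨p, ⟨c, hc, hxp⟩, le_antisymm ?_ ?_, min δ ε, lt_min hδ hε, huniq⟩
    · intro g hg a ha
      rw [mem_loc hI] at hg
      obtain ⟨η, hη, h⟩ := hg
      refine h p ⟨c, hc, fun i => ?_⟩ a ha
      rw [hxp]; simpa using hη
    · intro g hg
      rw [mem_loc hI]
      refine ⟨min δ ε, lt_min hδ hε, fun w hw c hc => ?_⟩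
      rw [huniq w hw]
      exact hg c hc
  · left
    rw [Ideal.eq_top_iff_one, mem_loc hI]
    refine ⟨min δ ε, lt_min hδ hε, fun w hw => ?_⟩
    obtain ⟨c, hc, hxw⟩ := hnear w hw
    exact absurd ⟨w, c, hc, hxw⟩ hB

end

section Fin2

variable {K : Type} [Field K] [NumberField K] {n : ℕ} {I : Ideal (Poly K n)}

/-- all places, necessary condition -/
theorem all_places (hN : S_NULL) (hGRB : S_GRB) (hGRT : S_GRT) (hDIM : S_DIM) (hREGC : S_REGC) (hZCR : S_ZCR)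
    (hCOMP : S_COMP) (hIRRF : S_IRRF) (hLIM : S_LIM) (hHREL : S_HREL) (hACT : S_ACT) (hI : Homog I)
    {r s : ℕ} (hrs : r ≠ s) (P : Fin r → Equiv.Perm (RatPt I)) (Q : Fin s → Equiv.Perm (RatPt I))
    (hP : ∀ i, Regular I (P i) ∧ Regular I (P i).symm) (hQ : ∀ j, Regular I (Q j) ∧ Regular I (Q j).symm)
    (hPQ : LinEquiv I (fun i => P i) (fun j => Q j)) {L : Type} [NormedField L] (σ : K →+* L)
    (hF : {J : Ideal (Poly K n) | ∃ x : Fin (n + 1) → L, x ≠ 0 ∧ J = localIdeal I σ x}.Finite)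
    (p : RatPt I) (hpinf : (MulAction.orbit (Subgroup.closure (Set.range P ∪ Set.range Q)) p).Infinite) :
    DimTwo (localIdeal I σ (fun i => σ (vec p i))) := by
  classical
  set S : Set (Equiv.Perm (RatPt I)) := Set.range P ∪ Set.range Q with hS
  set Γ0 : Subgroup (Equiv.Perm (RatPt I)) := Subgroup.closure S with hΓ0
  have hPr : ∀ i, RegK I (P i) ∧ RegK I (P i).symm := fun i => ⟨(hP i).1.regK, (hP i).2.regK⟩
  have hQr : ∀ j, RegK I (Q j) ∧ RegK I (Q j).symm := fun j => ⟨(hQ j).1.regK, (hQ j).2.regK⟩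
  have hSr : ∀ g ∈ S, RegK I g ∧ RegK I g.symm := by
    rintro g (⟨i, rfl⟩ | ⟨j, rfl⟩)
    · exact hPr i
    · exact hQr j
  have hreg : ∀ γ ∈ Γ0, RegK I γ ∧ RegK I γ.symm := fun γ hγ => closure_reg hREGC hSr hγ
  obtain ⟨C1, hC1⟩ := hHREL K n I hI r s (fun i => P i) (fun j => Q j) hPQ
  rintro ⟨m, hm1, hm0⟩
  set f : Equiv.Perm (RatPt I) → Ideal (Poly K n) := fun γ => localIdeal I σ (fun i => σ (vec (γ p) i)) with hf
  have hact : ∀ φ ∈ Γ0, ∀ a b : RatPt I,
      localIdeal I σ (fun i => σ (vec a i)) = localIdeal I σ (fun i => σ (vec b i)) →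
      localIdeal I σ (fun i => σ (vec (φ a) i)) = localIdeal I σ (fun i => σ (vec (φ b) i)) := by
    intro φ hφ a b hab
    ext g
    rw [mem_loc hI, mem_loc hI]
    refine hACT K n I φ (hreg φ hφ).1 (hreg φ hφ).2 L σ a b (fun g => ?_) g
    rw [← mem_loc hI, ← mem_loc hI, hab]
  let Γ : Subgroup (Equiv.Perm (RatPt I)) :=
    { carrier := {γ | γ ∈ Γ0 ∧ f γ = f 1}
      one_mem' := ⟨one_mem _, rfl⟩
      mul_mem' := by
        rintro a b ⟨ha, ha'⟩ ⟨hb, hb'⟩
        refine ⟨mul_mem ha hb, ?_⟩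
        rw [← ha']
        exact hact a ha (b p) p hb'
      inv_mem' := by
        rintro a ⟨ha, ha'⟩
        refine ⟨inv_mem ha, ?_⟩
        have := hact a⁻¹ (inv_mem ha) (a p) p ha'
        rw [show a⁻¹ (a p) = p from a.symm_apply_apply p] at this
        exact this.symm }
  have hΓle : Γ ≤ Γ0 := fun γ hγ => hγ.1
  have hidx : Γ.relIndex Γ0 ≠ 0 := by
    set H : Subgroup Γ0 := Γ.subgroupOf Γ0 with hH
    have hfr : (Set.range fun γ : Γ0 => f γ).Finite := by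
      refine hF.subset ?_
      rintro _ ⟨γ, rfl⟩
      refine ⟨fun i => σ (vec ((γ : Equiv.Perm (RatPt I)) p) i), ?_, rfl⟩
      intro h0
      apply vec_ne ((γ : Equiv.Perm (RatPt I)) p)
      funext i
      exact (map_eq_zero σ).1 (congrFun h0 i)
    haveI := hfr.to_subtype
    have hfin : Finite (Γ0 ⧸ H) := by
      refine Finite.of_injective (fun c : Γ0 ⧸ H => (⟨f c.out, c.out, rfl⟩ : Set.range fun γ : Γ0 => f γ)) ?_
      intro c c' h
      have h1 : f (c.out : Γ0) = f (c'.out : Γ0) := congrArg Subtype.val h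
      rw [← QuotientGroup.out_eq' c, ← QuotientGroup.out_eq' c']
      rw [QuotientGroup.eq]
      rw [Subgroup.mem_subgroupOf]
      have h2 : (((c.out : Γ0)⁻¹ * (c'.out : Γ0) : Γ0) : Equiv.Perm (RatPt I)) =
        (c.out : Γ0).1⁻¹ * (c'.out : Γ0).1 := rfl
      refine ⟨((c.out : Γ0)⁻¹ * (c'.out : Γ0) : Γ0).2, ?_⟩
      have h3 := hact (c.out : Γ0).1⁻¹ (inv_mem (c.out : Γ0).2) _ _ h1
      rw [show (c.out : Γ0).1⁻¹ ((c.out : Γ0).1 p) = p from (c.out : Γ0).1.symm_apply_apply p] at h3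
      rw [h2]
      exact h3.symm
    have := Subgroup.finiteIndex_of_finite_quotient (H := H)
    exact this.index_ne_zero
  refine curveD hN hGRB hGRT hDIM hREGC hZCR hCOMP hIRRF hLIM hrs P Q hPr hQr hC1 Γ hΓle hidx
    {y | ∃ γ ∈ Γ, y = γ p} (fun hfin => hpinf (orb_fin hΓle hidx hfin)) ?_ _ (homog_loc hI σ _) m hm1 hm0 ?_
  · rintro γ hγ _ ⟨γ', hγ', rfl⟩
    exact ⟨γ * γ', mul_mem hγ hγ', rfl⟩
  · rintro _ ⟨γ, hγ, rfl⟩ g hg
    have h1 : g ∈ localIdeal I σ (fun i => σ (vec (γ p) i)) := by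
      have : f γ = f 1 := hγ.2
      simp only [hf, Equiv.Perm.coe_one, id] at this
      rw [this]; exact hg
    rw [mem_loc hI] at h1
    obtain ⟨ε, hε, h⟩ := h1
    simpa using h (γ p) (MZ.near_self _ hε) 1 one_ne_zero

/-- good places -/
theorem good_places (hN : S_NULL) (hGRB : S_GRB) (hGRT : S_GRT) (hDIM : S_DIM) (hREGC : S_REGC) (hZCR : S_ZCR)
    (hCOMP : S_COMP) (hIRRF : S_IRRF) (hLIM : S_LIM) (hHREL : S_HREL) (hGDM : S_GDM) (hREC : S_REC) (hI : Homog I)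
    {r s : ℕ} (hrs : r ≠ s) (P : Fin r → Equiv.Perm (RatPt I)) (Q : Fin s → Equiv.Perm (RatPt I))
    (hP : ∀ i, Regular I (P i) ∧ Regular I (P i).symm) (hQ : ∀ j, Regular I (Q j) ∧ Regular I (Q j).symm)
    (hPQ : LinEquiv I (fun i => P i) (fun j => Q j)) :
    ∃ N : ℕ, N ≠ 0 ∧ ∀ (L : Type) [NontriviallyNormedField L] [IsUltrametricDist L] [ProperSpace L] (σ : K →+* L),
      ‖(N : L)‖ = 1 → ∀ x : Fin (n + 1) → L, x ≠ 0 →
        localIdeal I σ x = ⊤ ∨
        (∃ p : RatPt I, (MulAction.orbit (Subgroup.closure (Set.range P ∪ Set.range Q)) p).Finite ∧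
          (∃ c : L, c ≠ 0 ∧ x = fun i => c * σ (vec p i)) ∧ localIdeal I σ x = pointIdeal (vec p)) ∨
        DimTwo (localIdeal I σ x) := by
  classical
  set S : Set (Equiv.Perm (RatPt I)) := Set.range P ∪ Set.range Q with hS
  set Γ0 : Subgroup (Equiv.Perm (RatPt I)) := Subgroup.closure S with hΓ0
  have hPr : ∀ i, RegK I (P i) ∧ RegK I (P i).symm := fun i => ⟨(hP i).1.regK, (hP i).2.regK⟩
  have hQr : ∀ j, RegK I (Q j) ∧ RegK I (Q j).symm := fun j => ⟨(hQ j).1.regK, (hQ j).2.regK⟩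
  obtain ⟨C1, hC1⟩ := hHREL K n I hI r s (fun i => P i) (fun j => Q j) hPQ
  have hgood : ∀ g ∈ S, ∃ N : ℕ, N ≠ 0 ∧
      ∀ (L : Type) [NontriviallyNormedField L] [IsUltrametricDist L] (σ : K →+* L),
      ‖(N : L)‖ = 1 → GoodMap I σ g ∧ GoodMap I σ g.symm := by
    intro g hg
    have h1 : Regular I g ∧ Regular I g.symm := by
      rcases hg with ⟨i, rfl⟩ | ⟨j, rfl⟩
      · exact hP i
      · exact hQ j
    obtain ⟨N1, hN1, h2⟩ := hGDM K n I hI g h1.1
    obtain ⟨N2, hN2, h3⟩ := hGDM K n I hI g.symm h1.2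
    refine ⟨N1 * N2, mul_ne_zero hN1 hN2, ?_⟩
    intro L _ _ σ hL
    have hle : ∀ m : ℕ, ‖(m : L)‖ ≤ 1 := fun m => IsUltrametricDist.norm_natCast_le_one L m
    rw [Nat.cast_mul, norm_mul] at hL
    have a1 : ‖(N1 : L)‖ = 1 := by
      refine le_antisymm (hle _) ?_
      by_contra hlt
      push Not at hlt
      have := mul_le_mul (le_refl ‖(N1 : L)‖) (hle N2) (norm_nonneg _) (norm_nonneg _)
      linarith
    have a2 : ‖(N2 : L)‖ = 1 := by
      rw [a1, one_mul] at hL; exact hL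
    exact ⟨h2 L σ a1, h3 L σ a2⟩
  choose! N hN0 hNg using hgood
  have hSfin : S.Finite := (Set.finite_range P).union (Set.finite_range Q)
  refine ⟨∏ g ∈ hSfin.toFinset, N g, ?_, ?_⟩
  · rw [Finset.prod_ne_zero_iff]
    intro g hg
    exact hN0 g ((Set.Finite.mem_toFinset hSfin).1 hg)
  · intro L _ _ _ σ hL x hx
    have hle : ∀ m : ℕ, ‖(m : L)‖ ≤ 1 := fun m => IsUltrametricDist.norm_natCast_le_one L m
    have hNL : ∀ g ∈ S, ‖(N g : L)‖ = 1 := by
      intro g hg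
      have hg' : g ∈ hSfin.toFinset := (Set.Finite.mem_toFinset hSfin).2 hg
      rw [Nat.cast_prod, norm_prod, ← Finset.mul_prod_erase _ _ hg'] at hL
      refine le_antisymm (hle _) ?_
      by_contra hlt
      push Not at hlt
      have h1 : ∏ b ∈ hSfin.toFinset.erase g, ‖(N b : L)‖ ≤ 1 :=
        Finset.prod_le_one (fun _ _ => norm_nonneg _) fun b _ => hle _
      have := mul_le_mul (le_refl ‖(N g : L)‖) h1 (Finset.prod_nonneg fun _ _ => norm_nonneg _) (norm_nonneg _)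
      linarith
    by_cases hd : DimTwo (localIdeal I σ x)
    · exact Or.inr (Or.inr hd)
    unfold DimTwo at hd
    push Not at hd
    obtain ⟨m, hm1, hm0⟩ := hd
    obtain ⟨ε, hε, hvan⟩ := loc_unif hI σ x
    have hrec := fun (η : ℝ) (hη : 0 < η) => hREC K n I hI L σ S (fun g hg => hNg g hg L σ (hNL g hg)) x hx η hη
    obtain ⟨δ, Γ, hδ, hδε, hΓ, hidx, hst⟩ := hrec ε hε
    have hfin : {w : RatPt I | Nr σ (vec w) x δ}.Finite := by
      by_contra hinf
      exact curveD hN hGRB hGRT hDIM hREGC hZCR hCOMP hIRRF hLIM hrs P Q hPr hQr hC1 Γ hΓ hidx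
        {w : RatPt I | Nr σ (vec w) x δ} hinf hst _ (homog_loc hI σ x) m hm1 hm0
        fun w hw g hg => hvan w (nr_mono hw hδε) g hg
    rcases isolated hI σ x hx hδ hfin with h | ⟨p, hxp, hpt, η, hη, huniq⟩
    · exact Or.inl h
    · right; left
      refine ⟨p, ?_, hxp, hpt⟩
      obtain ⟨δ', Γ', hδ', hδη, hΓ', hidx', hst'⟩ := hrec η hη
      refine orb_fin hΓ' hidx' ((Set.finite_singleton p).subset ?_)
      rintro _ ⟨γ, hγ, rfl⟩
      refine huniq _ (nr_mono (hst' γ hγ p ?_) hδη)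
      obtain ⟨c, hc, hxp⟩ := hxp
      refine ⟨c, hc, fun i => ?_⟩
      rw [hxp]; simpa using hδ'

end Fin2

end Pool.Agent.H55.MG
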