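import Pool.Agent.H55.MG.Stm
import Pool.Agent.H55.MZ.GOOD

/-!
# Project MG: stub GDM (good reduction of a morphism at almost all places)
-/

set_option autoImplicit false

open MvPolynomial Filter Topology Height
open scoped LinearAlgebra.Projectivization

namespace Pool.Agent.H55.MG.GDM

open Pool.Agent.H55.MZ (Poly NoZero Homog Pt Par eval_smul_hom eval_bind)
open Pool.Agent.H55.MZ.GOOD (norm_le_of_isIntegral eval_le)

theorem t : S_GDM := by
  classical
  intro K _ _ n I hI φ hφ
  obtain ⟨k, e, A, hA1, hA2, hA3⟩ := hφ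
  have hex : ∀ l, ∃ (M : ℕ) (q : Fin k × Fin (n + 1) → Poly K n),
      (X l : Poly K n) ^ M - ∑ j, q j * A j.1 j.2 ∈ I := by
    intro l
    obtain ⟨M, hM⟩ := hA2 l
    obtain ⟨g, hg, b, hb, hgb⟩ := Submodule.mem_sup.1 hM
    obtain ⟨q, hq⟩ := Ideal.mem_span_range_iff_exists_fun.1 hb
    refine ⟨M, q, ?_⟩
    rw [← hgb, ← hq]
    simpa using hg
  choose M q hrel using hex
  set s : Finset K := (Finset.univ : Finset (Fin k × Fin (n + 1))).biUnion
      (fun p => (A p.1 p.2).support.image (fun b => (A p.1 p.2).coeff b)) ∪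
    (Finset.univ : Finset (Fin (n + 1) × (Fin k × Fin (n + 1)))).biUnion
      (fun p => (q p.1 p.2).support.image (fun b => (q p.1 p.2).coeff b)) with hs
  obtain ⟨y, hy0, hy⟩ := exists_integral_multiples ℤ ℚ s
  refine ⟨y.natAbs, by omega, ?_⟩
  intro L _ _ σ hNL
  have hyL : ‖(y : L)‖ = 1 := by
    rcases Int.natAbs_eq y with h | h
    · have h' := congrArg (fun t : ℤ => (t : L)) h
      simp only [Int.cast_natCast] at h'
      rw [h']
      exact hNL
    · have h' := congrArg (fun t : ℤ => (t : L)) h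
      simp only [Int.cast_neg, Int.cast_natCast] at h'
      rw [h', norm_neg]
      exact hNL
  have hcoef : ∀ z ∈ s, ‖σ z‖ ≤ 1 := by
    intro z hz
    have h1 : IsIntegral ℤ (σ (y • z)) := (hy z hz).map σ.toIntAlgHom
    have h2 := norm_le_of_isIntegral _ h1
    rw [zsmul_eq_mul, map_mul, map_intCast, norm_mul, hyL, one_mul] at h2
    exact h2
  have hAc : ∀ i j b, ‖σ ((A i j).coeff b)‖ ≤ 1 := by
    intro i j b
    by_cases hb : b ∈ (A i j).support
    · apply hcoef
      rw [hs, Finset.mem_union, Finset.mem_biUnion]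
      left
      exact ⟨(i, j), Finset.mem_univ _, Finset.mem_image.mpr ⟨b, hb, rfl⟩⟩
    · rw [notMem_support_iff.mp hb, map_zero, norm_zero]
      exact zero_le_one
  have hqc : ∀ l p b, ‖σ ((q l p).coeff b)‖ ≤ 1 := by
    intro l p b
    by_cases hb : b ∈ (q l p).support
    · apply hcoef
      rw [hs, Finset.mem_union, Finset.mem_biUnion, Finset.mem_biUnion]
      right
      exact ⟨(l, p), Finset.mem_univ _, Finset.mem_image.mpr ⟨b, hb, rfl⟩⟩
    · rw [notMem_support_iff.mp hb, map_zero, norm_zero]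
      exact zero_le_one
  refine ⟨k, e, A, hA1, hA3, hAc, ?_⟩
  intro x hx hx1 ⟨l, hl⟩
  by_contra hcon
  push Not at hcon
  have hlt : ∀ i j, ‖σ (eval x (A i j))‖ < 1 := fun i j =>
    lt_of_le_of_ne (eval_le σ _ (hAc i j) x hx1) (hcon i j)
  have h1 := hx.2 _ (hrel l)
  rw [map_sub, map_pow, eval_X, map_sum, sub_eq_zero] at h1
  have h2 := congrArg σ h1
  rw [map_pow, map_sum] at h2
  have h3 := congrArg norm h2
  rw [norm_pow, hl, one_pow] at h3
  rcases isEmpty_or_nonempty (Fin k × Fin (n + 1)) with hemp | hne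
  · rw [Finset.univ_eq_empty, Finset.sum_empty, norm_zero] at h3
    norm_num at h3
  obtain ⟨p, -, hp⟩ := IsUltrametricDist.exists_norm_finsetSum_le
    (Finset.univ : Finset (Fin k × Fin (n + 1))) (fun j => σ (eval x (q l j * A j.1 j.2)))
  have h4 : ‖σ (eval x (q l p * A p.1 p.2))‖ < 1 := by
    rw [map_mul, map_mul, norm_mul]
    calc ‖σ (eval x (q l p))‖ * ‖σ (eval x (A p.1 p.2))‖ ≤ 1 * ‖σ (eval x (A p.1 p.2))‖ := by
          gcongr
          exact eval_le σ _ (hqc _ _) x hx1
      _ < 1 := by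
          rw [one_mul]
          exact hlt _ _
  linarith

end Pool.Agent.H55.MG.GDM
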