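import Pool.Agent.H55.MG.Stm2
import Pool.Agent.H55.MZ.ALG

/-!
# Project MG: stub GRB (linear growth)
-/

set_option autoImplicit false

open MvPolynomial

namespace Pool.Agent.H55.MG.GRB

open Pool.Agent.H55.MZ (Poly NoZero Homog)
open Pool.Agent.H55.MZ.ALG

theorem t : S_GRB := by
  classical
  intro K _ n J hJ m hm hJm
  choose e he using hJm
  set D : ℕ := ∑ l, e l with hD
  have hfin : ∀ s, Module.Finite K (homogeneousSubmodule (Fin (n + 1)) K s) := fun s =>
    Module.Finite.iff_fg.2 (homogeneousSubmodule_fg _ _ s)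
  set P : ℕ → Submodule K (Poly K n) := fun s => homogeneousSubmodule (Fin (n + 1)) K s with hP
  set π : Poly K n →ₗ[K] Poly K n ⧸ J := (Ideal.Quotient.mkₐ K J).toLinearMap with hπ
  refine ⟨Module.finrank K (P D) + ∑ s ∈ Finset.range D, Module.finrank K (P s), ?_⟩
  intro s W _ _ _ f hf
  haveI := hfin s
  rcases lt_or_ge s D with hs | hs
  · -- small degrees
    have h1 : LinearMap.range (π ∘ₗ f) ≤ (P s).map π := by
      rintro _ ⟨w, rfl⟩
      exact ⟨f w, (mem_homogeneousSubmodule s _).2 (hf w), rfl⟩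
    have h2 : Module.finrank K (LinearMap.range (π ∘ₗ f)) ≤ Module.finrank K (P s) :=
      (Submodule.finrank_mono h1).trans (Submodule.finrank_map_le π (P s))
    have h3 : Module.finrank K (P s) ≤ ∑ s ∈ Finset.range D, Module.finrank K (P s) :=
      Finset.single_le_sum (f := fun s => Module.finrank K (P s)) (fun _ _ => Nat.zero_le _) (Finset.mem_range.2 hs)
    calc _ ≤ Module.finrank K (P s) := h2
      _ ≤ (Module.finrank K (P D) + ∑ s ∈ Finset.range D, Module.finrank K (P s)) * 1 := by omega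
      _ ≤ _ := Nat.mul_le_mul_left _ (by omega)
  · obtain ⟨t, rfl⟩ := Nat.exists_eq_add_of_le hs
    haveI := hfin D
    let T : (Fin (t + 1) → P D) →ₗ[K] Poly K n ⧸ J :=
      ∑ i : Fin (t + 1), π ∘ₗ (LinearMap.mulLeft K (m 0 ^ (i : ℕ) * m 1 ^ (t - i))) ∘ₗ (P D).subtype
        ∘ₗ LinearMap.proj i
    have hT : ∀ b, T b = π (∑ i : Fin (t + 1), m 0 ^ (i : ℕ) * m 1 ^ (t - i) * (b i : Poly K n)) := by
      intro b
      simp [T, map_sum, mul_assoc]
    have hTr : ∀ g : Poly K n, g.IsHomogeneous (D + t) → π g ∈ LinearMap.range T := by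
      intro g hg
      obtain ⟨b, hb, hb'⟩ := forms J hJ m hm e he t g hg
      refine ⟨fun i => ⟨b i, hb i⟩, ?_⟩
      rw [hT, ← sub_eq_zero, ← map_sub]
      rw [← Fin.sum_univ_eq_sum_range (fun i => m 0 ^ i * m 1 ^ (t - i) * b i)] at hb'
      have : (∑ i : Fin (t + 1), m 0 ^ (i : ℕ) * m 1 ^ (t - i) * b i) - g ∈ J := by
        rw [← neg_sub]
        exact J.neg_mem hb'
      exact Ideal.Quotient.eq_zero_iff_mem.2 this
    have h1 : LinearMap.range (π ∘ₗ f) ≤ LinearMap.range T := by
      rintro _ ⟨w, rfl⟩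
      exact hTr _ (hf w)
    have h2 : Module.finrank K (LinearMap.range T) ≤ (t + 1) * Module.finrank K (P D) := by
      refine (LinearMap.finrank_range_le T).trans (le_of_eq ?_)
      rw [Module.finrank_pi_fintype]
      simp
    calc _ ≤ Module.finrank K (LinearMap.range T) := Submodule.finrank_mono h1
      _ ≤ (t + 1) * Module.finrank K (P D) := h2
      _ = Module.finrank K (P D) * (t + 1) := mul_comm _ _
      _ ≤ _ := Nat.mul_le_mul (Nat.le_add_right _ _) (by omega)

end Pool.Agent.H55.MG.GRB
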