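import Pool.Agent.H55.MG.Stm2

/-!
# Project MG: stub GRT (growth of a pulled back ideal)
-/

set_option autoImplicit false

open MvPolynomial

namespace Pool.Agent.H55.MG.GRT

open Pool.Agent.H55.MZ (Poly NoZero Homog)

section

variable {K : Type} [Field K] {n : ℕ}

/-- the homogenized substitution -/
noncomputable def Θ (A : Fin (n + 1) → Poly K n) : Poly K n →+* Polynomial (Poly K n) :=
  eval₂Hom (Polynomial.C.comp C) (fun i => Polynomial.C (A i) * Polynomial.X)

lemma Θ_mon (A : Fin (n + 1) → Poly K n) (d : Fin (n + 1) →₀ ℕ) (c : K) :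
    Θ A (monomial d c) = Polynomial.C (bind₁ A (monomial d c)) * Polynomial.X ^ d.degree := by
  unfold Θ
  rw [coe_eval₂Hom, eval₂_monomial, bind₁_monomial]
  simp only [Finsupp.prod, mul_pow, Finset.prod_mul_distrib]
  rw [Finset.prod_pow_eq_pow_sum, map_mul, map_prod, RingHom.comp_apply]
  simp only [map_pow]
  rw [mul_assoc]
  rfl

lemma Θ_coeff (A : Fin (n + 1) → Poly K n) (g : Poly K n) (t : ℕ) :
    (Θ A g).coeff t = bind₁ A (homogeneousComponent t g) := by
  induction g using MvPolynomial.induction_on' with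
  | monomial d c =>
    rw [Θ_mon, homogeneousComponent_of_mem (isHomogeneous_monomial c rfl : (monomial d c : Poly K n).IsHomogeneous _),
      Polynomial.coeff_C_mul, Polynomial.coeff_X_pow]
    by_cases h : t = d.degree <;> simp [h]
  | add p q hp hq => rw [map_add, Polynomial.coeff_add, hp, hq, map_add, map_add]

/-- the pulled back ideal -/
noncomputable def pull (J : Ideal (Poly K n)) {k : ℕ} (A : Fin k → Fin (n + 1) → Poly K n) : Ideal (Poly K n) :=
  ⨅ α, (J.map Polynomial.C).comap (Θ (A α))

lemma mem_pull (J : Ideal (Poly K n)) {k : ℕ} (A : Fin k → Fin (n + 1) → Poly K n) (g : Poly K n) :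
    g ∈ pull J A ↔ ∀ (t : ℕ) (α : Fin k), bind₁ (A α) (homogeneousComponent t g) ∈ J := by
  unfold pull
  rw [Submodule.mem_iInf]
  constructor
  · intro h t α
    have := Ideal.mem_map_C_iff.1 (Ideal.mem_comap.1 (h α)) t
    rwa [Θ_coeff] at this
  · intro h α
    rw [Ideal.mem_comap, Ideal.mem_map_C_iff]
    intro t
    rw [Θ_coeff]
    exact h t α

end

theorem t : S_GRT := by
  classical
  intro K _ n J hJ hG k e A hA
  obtain ⟨c, hc⟩ := hG
  refine ⟨pull J A, ?_, ?_, fun g hg => (mem_pull J A g).1 hg⟩
  · intro g hg s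
    rw [mem_pull] at hg ⊢
    intro t α
    rw [homogeneousComponent_of_mem (homogeneousComponent_isHomogeneous s g)]
    split_ifs
    · exact hg s α
    · simp
  · refine ⟨c * ∑ α, (e α + 1), ?_⟩
    intro s W _ _ _ f hf
    set π : Poly K n →ₗ[K] Poly K n ⧸ J := (Ideal.Quotient.mkₐ K J).toLinearMap with hπ
    set π' : Poly K n →ₗ[K] Poly K n ⧸ pull J A := (Ideal.Quotient.mkₐ K (pull J A)).toLinearMap with hπ'
    let F : Fin k → W →ₗ[K] Poly K n ⧸ J := fun α => π ∘ₗ ((bind₁ (A α)).toLinearMap ∘ₗ f)
    let G : W →ₗ[K] (∀ α, LinearMap.range (F α)) := LinearMap.pi fun α => (F α).rangeRestrict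
    have hker : LinearMap.ker (π' ∘ₗ f) = LinearMap.ker G := by
      ext w
      have h1 : w ∈ LinearMap.ker (π' ∘ₗ f) ↔ f w ∈ pull J A := by
        rw [LinearMap.mem_ker]
        exact Ideal.Quotient.eq_zero_iff_mem
      have h2 : w ∈ LinearMap.ker G ↔ ∀ α, bind₁ (A α) (f w) ∈ J := by
        rw [LinearMap.mem_ker, funext_iff]
        refine forall_congr' fun α => ?_
        have h3 : G w α = 0 ↔ π (bind₁ (A α) (f w)) = 0 := by
          constructor
          · intro h; exact congrArg Subtype.val h
          · intro h; exact Subtype.ext h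
        exact h3.trans Ideal.Quotient.eq_zero_iff_mem
      rw [h1, h2, mem_pull]
      constructor
      · intro h α
        have := h s α
        rwa [homogeneousComponent_eq_self (hf w)] at this
      · intro h t α
        rw [homogeneousComponent_of_mem (hf w)]
        split_ifs
        · exact h α
        · simp
    have e1 := LinearMap.finrank_range_add_finrank_ker (π' ∘ₗ f)
    have e2 := LinearMap.finrank_range_add_finrank_ker G
    rw [hker] at e1
    have e3 : Module.finrank K (LinearMap.range (π' ∘ₗ f)) = Module.finrank K (LinearMap.range G) := by omega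
    rw [e3]
    have e4 : Module.finrank K (LinearMap.range G) ≤ ∑ α, Module.finrank K (LinearMap.range (F α)) := by
      rw [← Module.finrank_pi_fintype]
      exact Submodule.finrank_le _
    refine e4.trans ?_
    have e5 : ∀ α, Module.finrank K (LinearMap.range (F α)) ≤ c * (e α * s + 1) := by
      intro α
      refine hc (e α * s) W ((bind₁ (A α)).toLinearMap ∘ₗ f) fun w => ?_
      exact (hf w).aeval _ (hA α)
    refine (Finset.sum_le_sum fun α _ => e5 α).trans ?_
    rw [← Finset.mul_sum, mul_assoc]
    refine Nat.mul_le_mul_left _ ?_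
    rw [Finset.sum_mul]
    refine Finset.sum_le_sum fun α _ => ?_
    nlinarith [Nat.zero_le (e α), Nat.zero_le s]

end Pool.Agent.H55.MG.GRT
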