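import Pool.Agent.H55.MG.Stm
import Pool.Agent.H55.MZ.NULL

/-!
# Project MG: stub HREL (the relation of the heights)
-/

set_option autoImplicit false

open MvPolynomial Filter Topology Height
open scoped LinearAlgebra.Projectivization

namespace Pool.Agent.H55.MG.HREL

open Pool.Agent.H55.MZ (Poly NoZero Homog Pt Par eval_smul_hom eval_bind)

variable {K : Type} [Field K] [NumberField K] {n : ℕ} {I : Ideal (Poly K n)}

lemma htf (hI : Homog I) {ι : Type} [Fintype ι] {D : ℕ} {p : ι → Poly K n} (hp : ∀ j, (p j).IsHomogeneous D)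
    (h0 : NoZero I p) :
    ∃ C : ℝ, ∀ x : Fin (n + 1) → K, (∀ g ∈ I, eval x g = 0) →
      |logHeight (fun j => eval x (p j)) - D * logHeight x| ≤ C := by
  obtain ⟨M, q, hq, hrel⟩ := MZ.NULL.t K n I hI ι D p hp h0
  obtain ⟨C1, hC1⟩ := logHeight_eval_le' (K := K) (p := p) (N := D) hp
  obtain ⟨C2, hC2⟩ := logHeight_eval_ge' (K := K) (N := D) hq
  refine ⟨max C1 (-C2), fun x hx => ?_⟩
  have h2 := hC1 x
  have h3 := hC2 p (x := x) (fun k => by
    have := hx _ (hrel k)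
    simp only [map_sub, map_sum, map_mul, map_pow, eval_X] at this
    linear_combination -this)
  rw [abs_le]
  constructor
  · have := le_max_right C1 (-C2)
    linarith
  · have := le_max_left C1 (-C2)
    linarith

lemma htt {r m : ℕ} {u : Fin (m + 1) → K} (hu : u ≠ 0) (v : Fin r → Fin (n + 1) → K) (hv : ∀ i, v i ≠ 0)
    {c : K} (hc : c ≠ 0) :
    logHeight (fun a : Fin (m + 1) × (Fin r → Fin (n + 1)) => c * (u a.1 * ∏ i, v i (a.2 i))) =
      logHeight u + ∑ i, logHeight (v i) := by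
  have h1 : (fun a : Fin (m + 1) × (Fin r → Fin (n + 1)) => c * (u a.1 * ∏ i, v i (a.2 i))) =
      c • (fun a : Fin (m + 1) × (Fin r → Fin (n + 1)) => u a.1 * (fun μ : Fin r → Fin (n + 1) => ∏ i, v i (μ i)) a.2) :=
    rfl
  have h2 : (fun μ : Fin r → Fin (n + 1) => ∏ i, v i (μ i)) ≠ 0 := by
    have : ∀ i, ∃ j, v i j ≠ 0 := by
      intro i
      by_contra hcon
      push Not at hcon
      exact hv i (funext hcon)
    choose μ hμ using this
    intro h0
    exact Finset.prod_ne_zero_iff.2 (fun i _ => hμ i) (congrFun h0 μ)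
  rw [h1, logHeight_smul_eq_logHeight _ hc, logHeight_fun_mul_eq hu h2]
  congr 1
  exact logHeight_fun_prod_eq (x := v) hv

theorem t : S_HREL := by
  intro K _ _ n I hI r s P Q hPQ
  obtain ⟨m, D, A, B, hA, hA0, hB, hB0, hAB⟩ := hPQ
  obtain ⟨C1, hC1⟩ := htf hI (fun a : Fin (m + 1) × (Fin r → Fin (n + 1)) => hA a.1 a.2) hA0
  obtain ⟨C2, hC2⟩ := htf hI (fun a : Fin (m + 1) × (Fin s → Fin (n + 1)) => hB a.1 a.2) hB0
  refine ⟨C1 + C2, fun p => ?_⟩
  obtain ⟨u, c, hu, hc, h1, h2⟩ := hAB p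
  have e1 := hC1 (vec p) p.2
  have e2 := hC2 (vec p) p.2
  have f1 : (fun a : Fin (m + 1) × (Fin r → Fin (n + 1)) => eval (vec p) (A a.1 a.2)) =
      fun a => 1 * (u a.1 * ∏ i, vec (P i p) (a.2 i)) := by
    funext a; rw [h1, one_mul]
  have f2 : (fun a : Fin (m + 1) × (Fin s → Fin (n + 1)) => eval (vec p) (B a.1 a.2)) =
      fun a => c * (u a.1 * ∏ j, vec (Q j p) (a.2 j)) := by
    funext a; rw [h2]
  rw [f1, htt hu (fun i => vec (P i p)) (fun i => (P i p).1.rep_nonzero) one_ne_zero] at e1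
  rw [f2, htt hu (fun j => vec (Q j p)) (fun j => (Q j p).1.rep_nonzero) hc] at e2
  rw [abs_le] at e1 e2 ⊢
  constructor <;> linarith [e1.1, e1.2, e2.1, e2.2]

end Pool.Agent.H55.MG.HREL
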