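import Pool.Agent.H55.MG.Stm
import Pool.Agent.H55.MZ.RATIO

/-!
# Project MG: stub LIM (limit of the ratio of the heights on an irreducible plane curve)
-/

set_option autoImplicit false

namespace Pool.Agent.H55.MG.LIM

open Polynomial Filter Topology Height
open Pool.Agent.H55.MZ.RATIO

section

variable {K : Type} [Field K] [NumberField K]

/-- the ratio is bounded -/
theorem bdd {ι : Type} (l : Filter ι) (f : Polynomial (Polynomial K)) (hf : Irreducible f) (m n : ℕ)
    (hf1 : ∀ i j, m < i → cf f i j = 0) (hn : f.natDegree = n) (hn1 : 1 ≤ n) (u v : ι → K)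
    (h0 : ∀ᶠ k in l, f.evalEval (u k) (v k) = 0) (hu : Tendsto (fun k => logHeight₁ (u k)) l atTop) :
    ∃ B : ℝ, 0 < B ∧ ∀ᶠ k in l, logHeight₁ (v k) ≤ B * logHeight₁ (u k) := by
  set I : ℕ := m * n + 1 + m with hI
  have hI1 : 1 ≤ I := Nat.le_add_right_of_le (Nat.le_add_left 1 _)
  have hI3 : m ≤ I := Nat.le_add_left m _
  have hI2 : m * n < n * I := by
    have : n * 1 ≤ n * I := Nat.mul_le_mul_left n hI1
    have h2 : n * I = m * n * n + n + n * m := by rw [hI]; ring
    rw [h2]
    nlinarith [Nat.zero_le (m * n * n)]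
  obtain ⟨s, g, hs, H, hH⟩ := solve f m n n I hf1 hn hn1 hf.ne_zero hI3 hI2
  have hsd := natDegree_toP_lt I n hn1 s
  obtain ⟨A, B, d, hd, hAB⟩ := bez f (toP I n s) hf (by omega) hs (by omega)
  obtain ⟨C0, hC0⟩ := h_frac I n n hI1 hn1 s g
  have h3 : ∀ᶠ k in l, (n : ℝ) * logHeight₁ (v k) ≤
      C0 + ((I : ℝ) - 1) * logHeight₁ (u k) + ((n : ℝ) - 1) * logHeight₁ (v k) := by
    filter_upwards [h0, ne_zero_ev l u hu d hd] with k hk hdk
    refine hC0 _ _ ?_ ?_
    · intro h4
      have h5 := congrArg (fun P : Polynomial (Polynomial K) => P.evalEval (u k) (v k)) hAB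
      simp only [evalEval_add, evalEval_mul, evalEval_C] at h5
      rw [hk, h4, mul_zero, mul_zero, add_zero] at h5
      exact hdk h5.symm
    · have h5 := congrArg (fun P : Polynomial (Polynomial K) => P.evalEval (u k) (v k)) hH
      simp only [evalEval_sub, evalEval_mul, evalEval_pow, evalEval_X] at h5
      rw [hk, zero_mul] at h5
      linear_combination h5
  refine ⟨|C0| + I, by positivity, ?_⟩
  filter_upwards [h3, hu.eventually_ge_atTop 1] with k hk hk1
  have h4 := le_abs_self C0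
  have h5 : |C0| ≤ |C0| * logHeight₁ (u k) := le_mul_of_one_le_right (abs_nonneg _) hk1
  have h6 : (0 : ℝ) ≤ I := by positivity
  nlinarith

end

theorem t : S_LIM := by
  intro K _ _ f hf
  set g : Polynomial (Polynomial K) := Bivariate.swap f with hg
  have hgi : Irreducible g := (MulEquiv.irreducible_iff (Bivariate.swap (R := K)).toMulEquiv).2 hf
  have hc1 : ∀ i j, g.natDegree < i → cf f i j = 0 := by
    intro i j hi
    rw [← cf_swap]
    have h1 : g.coeff i = 0 := coeff_eq_zero_of_natDegree_lt hi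
    unfold cf
    rw [← hg, h1, coeff_zero]
  have hc2 : ∀ i j, f.natDegree < i → cf g i j = 0 := by
    intro i j hi
    rw [hg, cf_swap]
    have h1 : f.coeff i = 0 := coeff_eq_zero_of_natDegree_lt hi
    unfold cf
    rw [h1, coeff_zero]
  refine ⟨(g.natDegree : ℝ) / f.natDegree, ?_⟩
  intro ι l _ u v hf0 hu hv
  have hg0 : ∀ᶠ k in l, g.evalEval (v k) (u k) = 0 := by
    filter_upwards [hf0] with k hk
    rw [hg, eval_swap]
    exact hk
  have hn1 := deg_ne l f hf.ne_zero u v hf0 hu
  have hm1 := deg_ne l g hgi.ne_zero v u hg0 hv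
  have hn0 : (0 : ℝ) < f.natDegree := by exact_mod_cast hn1
  have hm0 : (0 : ℝ) < g.natDegree := by exact_mod_cast hm1
  refine ⟨?_, ?_⟩
  · rw [div_mul_cancel₀ _ hn0.ne']
    exact_mod_cast hm1
  rw [tendsto_iff_ultrafilter]
  intro U hU
  have hu' := hu.mono_left hU
  have hv' := hv.mono_left hU
  have hf0' := hf0.filter_mono hU
  have hg0' := hg0.filter_mono hU
  obtain ⟨B, hB, hB'⟩ := bdd (U : Filter ι) f hf g.natDegree f.natDegree hc1 rfl hn1 u v hf0' hu'
  obtain ⟨B2, hB2, hB2'⟩ := bdd (U : Filter ι) g hgi f.natDegree g.natDegree hc2 rfl hm1 v u hg0' hv'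
  have hmem : ∀ᶠ k in (U : Filter ι), logHeight₁ (v k) / logHeight₁ (u k) ∈ Set.Icc (1 / B2) B := by
    filter_upwards [hB', hB2', hu'.eventually_gt_atTop 0] with k h1 h2 h3
    constructor
    · rw [div_le_div_iff₀ hB2 h3]
      linarith
    · rw [div_le_iff₀ h3]
      exact h1
  obtain ⟨r, hr, hrt⟩ := isCompact_Icc.ultrafilter_le_nhds
    (U.map fun k => logHeight₁ (v k) / logHeight₁ (u k)) (by
      rw [Ultrafilter.coe_map, le_principal_iff]
      exact hmem)
  have hr' : Tendsto (fun k => logHeight₁ (v k) / logHeight₁ (u k)) (U : Filter ι) (𝓝 r) := hrt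
  have hr2 : 0 < r := lt_of_lt_of_le (by positivity) hr.1
  have h1 := half (U : Filter ι) f hf g.natDegree f.natDegree hc1 rfl hn1 u v hf0' hu' r hr'
  have h2 := half (U : Filter ι) g hgi f.natDegree g.natDegree hc2 rfl hm1 v u hg0' hv' r⁻¹ (by
    refine (hr'.inv₀ hr2.ne').congr fun k => ?_
    rw [inv_div])
  have hreq : r = (g.natDegree : ℝ) / f.natDegree := by
    rw [eq_div_iff hn0.ne']
    rw [← div_eq_mul_inv, div_le_iff₀ hr2] at h2
    linarith
  rw [← hreq]
  exact hr'

end Pool.Agent.H55.MG.LIM
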