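import Pool.Agent.H55.MG.Stm
import Pool.Agent.H55.MZ.RED

/-!
# Project MG: stub REC (recurrence at a place of good reduction)
-/

set_option autoImplicit false

open MvPolynomial Filter Topology Height
open scoped LinearAlgebra.Projectivization

namespace Pool.Agent.H55.MG.REC

open Pool.Agent.H55.MZ (Poly NoZero Homog Pt Par)
open Pool.Agent.H55.MZ.RED

section

variable {K : Type} [Field K] {L : Type} [NontriviallyNormedField L] [IsUltrametricDist L] {n : ℕ}
  {I : Ideal (Poly K n)} (σ : K →+* L)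

theorem vec_ne (p : RatPt I) : vec p ≠ 0 := p.1.rep_nonzero

theorem vec_pt (p : RatPt I) : Pt I (vec p) := ⟨vec_ne p, p.2⟩

theorem good_rl (hI : Homog I) {φ : RatPt I → RatPt I} (hφ : GoodMap I σ φ) {s : ℝ} (hs : 0 < s) (hs1 : s < 1)
    {p q : RatPt I} (h : Rl σ s (vec p) (vec q)) : Rl σ s (vec (φ p)) (vec (φ q)) := by
  obtain ⟨k, e, A, hA, hev, hco, hun⟩ := hφ
  obtain ⟨c, c', h1, h2, h3⟩ := h
  obtain ⟨α, i0, hi0⟩ := hun _ (pt_smul hI (vec_pt p) (un_ne σ h1)) h1.1 h1.2
  have hcl : ∀ i, _ := fun i => eval_close σ hs (A α i) (hco α i) h1.1 h2.1 h3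
  obtain ⟨t, ht⟩ := hev p α
  obtain ⟨t', ht'⟩ := hev q α
  have e1 : ∀ i, eval (fun i => c * vec p i) (A α i) = c ^ e α * t * vec (φ p) i := by
    intro i
    rw [eval_smul_hom (hA α i), ht]
    ring
  have e2 : ∀ i, eval (fun i => c' * vec q i) (A α i) = c' ^ e α * t' * vec (φ q) i := by
    intro i
    rw [eval_smul_hom (hA α i), ht']
    ring
  simp only [e1] at hi0
  simp only [e1, e2] at hcl
  refine ⟨c ^ e α * t, c' ^ e α * t', ⟨fun i => (hcl i).1, i0, hi0⟩, ⟨fun i => (hcl i).2.1, i0, ?_⟩,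
    fun i => (hcl i).2.2⟩
  refine le_antisymm (hcl i0).2.1 ?_
  by_contra hlt
  push Not at hlt
  have h4 := (hcl i0).2.2
  have e3 : σ (c ^ e α * t * vec (φ p) i0) = σ (c' ^ e α * t' * vec (φ q) i0) +
      (σ (c ^ e α * t * vec (φ p) i0) - σ (c' ^ e α * t' * vec (φ q) i0)) := by ring
  have h5 := IsUltrametricDist.norm_add_le_max (σ (c' ^ e α * t' * vec (φ q) i0))
    (σ (c ^ e α * t * vec (φ p) i0) - σ (c' ^ e α * t' * vec (φ q) i0))
  rw [← e3, hi0] at h5
  exact absurd h5 (not_le.2 (max_lt hlt (h4.trans hs1)))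

/-- the setoid of close points -/
def Sd {s : ℝ} (hs : 0 < s) : Setoid (RatPt I) where
  r p q := Rl σ s (vec p) (vec q)
  iseqv :=
    { refl := fun p => rl_refl σ hs (vec_ne p)
      symm := fun h => rl_symm σ h
      trans := fun h h' => rl_trans σ h h' }

theorem fin_classes [ProperSpace L] {s : ℝ} (hs : 0 < s) : Finite (Quotient (Sd (I := I) σ hs)) := by
  by_contra hinf
  rw [not_finite_iff_infinite] at hinf
  let f := Infinite.natEmbedding (Quotient (Sd (I := I) σ hs))
  obtain ⟨P, hP⟩ : ∃ P : ℕ → RatPt I, ∀ k, (Quotient.mk (Sd (I := I) σ hs) (P k)) = f k :=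
    ⟨fun k => (f k).out, fun k => Quotient.out_eq _⟩
  choose c hc using fun k => un_exists σ (vec (P k)) (vec_ne (P k))
  have hK : IsCompact (Metric.closedBall (0 : Fin (n + 1) → L) 1) := isCompact_closedBall _ _
  obtain ⟨a, _, φ, hφ, hlim⟩ := hK.tendsto_subseq
    (x := fun k => (fun i => σ (c k * vec (P k) i) : Fin (n + 1) → L))
    (fun k => by
      rw [mem_closedBall_zero_iff, pi_norm_le_iff_of_nonneg zero_le_one]
      exact (hc k).1)
  rw [Metric.tendsto_atTop] at hlim
  obtain ⟨N, hN⟩ := hlim (s / 2) (by linarith)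
  have hR : Rl σ s (vec (P (φ N))) (vec (P (φ (N + 1)))) := by
    refine ⟨c (φ N), c (φ (N + 1)), hc _, hc _, fun i => ?_⟩
    have h1 := hN N le_rfl
    have h2 := hN (N + 1) (Nat.le_succ N)
    have h3 : dist ((fun k => (fun i => σ (c k * vec (P k) i) : Fin (n + 1) → L)) (φ N))
        ((fun k => (fun i => σ (c k * vec (P k) i) : Fin (n + 1) → L)) (φ (N + 1))) < s := by
      refine lt_of_le_of_lt (dist_triangle_right _ _ a) ?_
      have h1' := h1
      have h2' := h2
      simp only [Function.comp] at h1' h2'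
      linarith
    rw [dist_eq_norm] at h3
    exact lt_of_le_of_lt (norm_le_pi_norm (((fun k => (fun i => σ (c k * vec (P k) i) : Fin (n + 1) → L)) (φ N)) -
      ((fun k => (fun i => σ (c k * vec (P k) i) : Fin (n + 1) → L)) (φ (N + 1)))) i) h3
  have h4 : f (φ N) = f (φ (N + 1)) := by
    rw [← hP, ← hP]
    exact Quotient.sound (s := Sd (I := I) σ hs) hR
  have h5 := f.injective h4
  exact absurd (hφ (Nat.lt_succ_self N)) (by rw [h5]; exact lt_irrefl _)

/-- the permutations which preserve the relation -/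
def Hs {s : ℝ} (hs : 0 < s) : Subgroup (Equiv.Perm (RatPt I)) where
  carrier := {g | ∀ p q, (Sd (I := I) σ hs) p q ↔ (Sd (I := I) σ hs) (g p) (g q)}
  mul_mem' := by
    intro a b ha hb p q
    rw [hb p q, ha (b p) (b q)]
    rfl
  one_mem' := fun p q => Iff.rfl
  inv_mem' := by
    intro a ha p q
    rw [ha (a⁻¹ p) (a⁻¹ q)]
    simp

/-- the action on the classes -/
def act {s : ℝ} (hs : 0 < s) (G : Subgroup (Equiv.Perm (RatPt I))) (hG : G ≤ Hs (I := I) σ hs) :
    G →* Equiv.Perm (Quotient (Sd (I := I) σ hs)) where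
  toFun g := Quotient.congr g.1 (hG g.2)
  map_one' := by
    ext x
    induction x using Quotient.inductionOn with
    | h a => rfl
  map_mul' := by
    intro g h
    ext x
    induction x using Quotient.inductionOn with
    | h a => rfl

/-- the stabilizer of all classes -/
def St {s : ℝ} (hs : 0 < s) (G : Subgroup (Equiv.Perm (RatPt I))) : Subgroup (Equiv.Perm (RatPt I)) where
  carrier := {g | g ∈ G ∧ ∀ p, (Sd (I := I) σ hs) (g p) p}
  mul_mem' := by
    intro a b ha hb
    refine ⟨G.mul_mem ha.1 hb.1, fun p => ?_⟩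
    exact (Sd (I := I) σ hs).trans' (ha.2 (b p)) (hb.2 p)
  one_mem' := ⟨G.one_mem, fun p => (Sd (I := I) σ hs).refl' p⟩
  inv_mem' := by
    intro a ha
    refine ⟨G.inv_mem ha.1, fun p => ?_⟩
    have h1 := ha.2 (a⁻¹ p)
    have h2 : a (a⁻¹ p) = p := a.apply_symm_apply p
    rw [h2] at h1
    exact (Sd (I := I) σ hs).symm' h1

end

theorem t : S_REC := by
  intro K _ n I hI L _ _ _ σ S hS x hx ε hε
  -- the norm of `x`
  obtain ⟨l, _, hl⟩ := Finset.exists_max_image Finset.univ (fun i => ‖x i‖) ⟨0, Finset.mem_univ _⟩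
  obtain ⟨j, hj⟩ : ∃ j, x j ≠ 0 := by
    by_contra h
    push Not at h
    exact hx (funext h)
  obtain ⟨a, ha⟩ : ∃ a, a = ‖x l‖ := ⟨_, rfl⟩
  have ha0 : 0 < a := by
    rw [ha]
    exact lt_of_lt_of_le (norm_pos_iff.2 hj) (hl j (Finset.mem_univ _))
  have hxa : ∀ i, ‖x i‖ ≤ a := fun i => by rw [ha]; exact hl i (Finset.mem_univ _)
  obtain ⟨δ, hδ⟩ : ∃ δ, δ = min ε (a / 2) := ⟨_, rfl⟩
  have hδ0 : 0 < δ := by rw [hδ]; exact lt_min hε (by positivity)
  have hδa : δ ≤ a / 2 := by rw [hδ]; exact min_le_right _ _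
  obtain ⟨s, hs⟩ : ∃ s, s = δ / a := ⟨_, rfl⟩
  have hs0 : 0 < s := by rw [hs]; positivity
  have hs1 : s < 1 := by
    rw [hs, div_lt_one ha0]
    linarith
  have hSH : Subgroup.closure S ≤ Hs (I := I) σ hs0 := by
    rw [Subgroup.closure_le]
    intro g hg p q
    obtain ⟨h1, h2⟩ := hS g hg
    constructor
    · intro h
      exact good_rl σ hI h1 hs0 hs1 h
    · intro h
      have h3 := good_rl σ hI h2 hs0 hs1 h
      rw [g.symm_apply_apply, g.symm_apply_apply] at h3
      exact h3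
  haveI hfin : Finite (Quotient (Sd (I := I) σ hs0)) := fin_classes σ hs0
  haveI hfin2 : Finite (Equiv.Perm (Quotient (Sd (I := I) σ hs0))) := inferInstance
  have hker : (act σ hs0 (Subgroup.closure S) hSH).ker ≤
      (St σ hs0 (Subgroup.closure S)).subgroupOf (Subgroup.closure S) := by
    intro g hg
    rw [Subgroup.mem_subgroupOf]
    refine ⟨g.2, fun p => ?_⟩
    have h1 : act σ hs0 (Subgroup.closure S) hSH g = 1 := hg
    have h2 := DFunLike.congr_fun h1 (Quotient.mk (Sd (I := I) σ hs0) p)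
    exact Quotient.exact (s := Sd (I := I) σ hs0) h2
  refine ⟨δ, St σ hs0 (Subgroup.closure S), hδ0, by rw [hδ]; exact min_le_left _ _, fun g hg => hg.1, ?_, ?_⟩
  · haveI : (act σ hs0 (Subgroup.closure S) hSH).ker.FiniteIndex := inferInstance
    haveI := Subgroup.finiteIndex_of_le hker
    exact Subgroup.FiniteIndex.index_ne_zero
  · rintro γ ⟨_, hγ⟩ p ⟨c, hc0, hc⟩
    obtain ⟨b', b, h1, h2, h3⟩ := hγ p
    have hb' := un_ne σ h1
    have hb := un_ne σ h2
    have hσb : σ b ≠ 0 := (map_ne_zero σ).2 hb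
    have hσb' : σ b' ≠ 0 := (map_ne_zero σ).2 hb'
    have hca : ∀ i, ‖c * σ (vec p i)‖ ≤ a := by
      intro i
      have e : c * σ (vec p i) = (c * σ (vec p i) - x i) + x i := by ring
      rw [e]
      refine (IsUltrametricDist.norm_add_le_max _ _).trans (max_le ?_ (hxa i))
      exact (hc i).le.trans (by linarith)
    have hcb : ‖c / σ b‖ ≤ a := by
      obtain ⟨j, hj⟩ := h2.2
      have e : c / σ b * σ (b * vec p j) = c * σ (vec p j) := by
        rw [map_mul]
        field_simp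
      have h4 := hca j
      rw [← e, norm_mul] at h4
      simp only at hj
      rwa [hj, mul_one] at h4
    refine ⟨c / σ b * σ b', mul_ne_zero (div_ne_zero hc0 hσb) hσb', fun i => ?_⟩
    have e : c / σ b * σ b' * σ (vec (γ p) i) - x i =
        c / σ b * (σ (b' * vec (γ p) i) - σ (b * vec p i)) + (c * σ (vec p i) - x i) := by
      rw [map_mul, map_mul]
      field_simp
      ring
    rw [e]
    refine lt_of_le_of_lt (IsUltrametricDist.norm_add_le_max _ _) (max_lt ?_ (hc i))
    rw [norm_mul]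
    calc ‖c / σ b‖ * ‖σ (b' * vec (γ p) i) - σ (b * vec p i)‖
        ≤ a * ‖σ (b' * vec (γ p) i) - σ (b * vec p i)‖ :=
          mul_le_mul_of_nonneg_right hcb (norm_nonneg _)
      _ < a * s := mul_lt_mul_of_pos_left (h3 i) ha0
      _ = δ := by rw [hs]; field_simp

end Pool.Agent.H55.MG.REC
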