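import Pool.Agent.H55.MG.Stm

/-!
# Project MG: stub REGC (composition)
-/

set_option autoImplicit false

open MvPolynomial Filter Topology Height
open scoped LinearAlgebra.Projectivization

namespace Pool.Agent.H55.MG.REGC

open Pool.Agent.H55.MZ (Poly NoZero Homog Pt Par eval_smul_hom eval_bind)

theorem t : S_REGC := by
  intro K _ n I φ ψ hφ hψ
  obtain ⟨k, e, A, hA1, hA2, hA3⟩ := hφ
  obtain ⟨k', e', B, hB1, hB2, hB3⟩ := hψ
  have hev : ∀ (p : RatPt I) (α : Fin k) (β : Fin k') (c : K),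
      (∀ i, eval (vec p) (B β i) = c * vec (ψ p) i) → ∀ i,
      eval (vec p) (bind₁ (B β) (A α i)) = c ^ e α * eval (vec (ψ p)) (A α i) := by
    intro p α β c hc i
    rw [eval_bind]
    have : (fun i => eval (vec p) (B β i)) = c • vec (ψ p) := by
      funext j
      rw [hc j]; rfl
    rw [this, eval_smul_hom (hA1 α i)]
  refine ⟨k * k', fun x => e' (finProdFinEquiv.symm x).2 * e (finProdFinEquiv.symm x).1,
    fun x i => bind₁ (B (finProdFinEquiv.symm x).2) (A (finProdFinEquiv.symm x).1 i), ?_, ?_, ?_⟩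
  · intro x i
    exact (hA1 _ i).aeval _ (hB1 _)
  · intro p x
    obtain ⟨c, hc⟩ := hB2 p (finProdFinEquiv.symm x).2
    obtain ⟨c', hc'⟩ := hA2 (ψ p) (finProdFinEquiv.symm x).1
    refine ⟨c ^ e (finProdFinEquiv.symm x).1 * c', fun i => ?_⟩
    rw [hev p _ _ c hc i, hc' i, mul_assoc]
    rfl
  · intro p
    obtain ⟨β, j, hβ⟩ := hB3 p
    obtain ⟨α, i, hα⟩ := hA3 (ψ p)
    obtain ⟨c, hc⟩ := hB2 p β
    have hc0 : c ≠ 0 := by
      rintro rfl
      exact hβ (by rw [hc j, zero_mul])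
    refine ⟨finProdFinEquiv (α, β), i, ?_⟩
    simp only [Equiv.symm_apply_apply]
    rw [hev p α β c hc i]
    exact mul_ne_zero (pow_ne_zero _ hc0) hα

end Pool.Agent.H55.MG.REGC
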