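import Pool.Agent.H55.MZ.Bas

/-!
# Project MG (helper55): Mazur's question for surfaces with a group of automorphisms

General form of project MZ.  `X ⊂ ℙⁿ` is a projective surface over a number field `K` with automorphisms `P i`, `i < r`,
and `Q j`, `j < s`, `r ≠ s`, such that `⨂ (P i)^* O(1) ≅ ⨂ (Q j)^* O(1)`.  Goal: at all but finitely many places of `K`
every local Zariski closure of `X(K)` is empty, or `X`, or a point with finite orbit under the group generated by the
`P i` and `Q j`.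

This file contains the definitions and the statements (`S_…`) of the parts, with complete proofs in the comments.
Prove `theorem Pool.Agent.H55.MG.<NAME>.t : Pool.Agent.H55.MG.S_<NAME>` in `Pool/Agent/H55/MG/<NAME>.lean`.
-/

set_option autoImplicit false

open MvPolynomial Filter Topology Height
open scoped LinearAlgebra.Projectivization

namespace Pool.Agent.H55.MG

open Pool.Agent.H55.MZ (Poly NoZero Homog Pt Par)

section Defs

variable {K : Type} [Field K] {n : ℕ}

/-- The set `X(K)` of the `K`-rational points of the projective variety `X` with the homogeneous ideal `I`. -/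
abbrev RatPt (I : Ideal (Poly K n)) : Type := {p : ℙ K (Fin (n + 1) → K) // ∀ g ∈ I, eval p.rep g = 0}

/-- A vector of homogeneous coordinates of a point of `X(K)`. -/
noncomputable def vec {I : Ideal (Poly K n)} (p : RatPt I) : Fin (n + 1) → K := p.1.rep

/-- The map `φ : X(K) → X(K)` is given by a morphism on `X`: there are finitely many vectors `A α` of forms, the
entries of `A α` of one degree `e α`, all these forms without common zero on `X`, such that for all `p ∈ X(K)` the vector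
`A α (p)` is zero or represents `φ p`. -/
def Regular (I : Ideal (Poly K n)) (φ : RatPt I → RatPt I) : Prop :=
  ∃ (k : ℕ) (e : Fin k → ℕ) (A : Fin k → Fin (n + 1) → Poly K n), (∀ α i, (A α i).IsHomogeneous (e α)) ∧
    NoZero I (fun a : Fin k × Fin (n + 1) => A a.1 a.2) ∧
    ∀ (p : RatPt I) (α : Fin k), ∃ c : K, ∀ i, eval (vec p) (A α i) = c * vec (φ p) i

/-- The relation `⨂ i, (P i)^* O(1) ≅ ⨂ j, (Q j)^* O(1)`: for some map `u` from `X` to a projective space the two
tensor products `u ⊗ ⨂ i, P i` and `u ⊗ ⨂ j, Q j` are given by forms of the same degree `D` without common zero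
on `X`. -/
def LinEquiv (I : Ideal (Poly K n)) {r s : ℕ} (P : Fin r → RatPt I → RatPt I) (Q : Fin s → RatPt I → RatPt I) :
    Prop :=
  ∃ (m D : ℕ) (A : Fin (m + 1) → (Fin r → Fin (n + 1)) → Poly K n)
    (B : Fin (m + 1) → (Fin s → Fin (n + 1)) → Poly K n),
    (∀ a μ, (A a μ).IsHomogeneous D) ∧ NoZero I (fun a : Fin (m + 1) × (Fin r → Fin (n + 1)) => A a.1 a.2) ∧
    (∀ a ν, (B a ν).IsHomogeneous D) ∧ NoZero I (fun a : Fin (m + 1) × (Fin s → Fin (n + 1)) => B a.1 a.2) ∧
    ∀ p : RatPt I, ∃ (u : Fin (m + 1) → K) (c : K), u ≠ 0 ∧ c ≠ 0 ∧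
      (∀ a μ, eval (vec p) (A a μ) = u a * ∏ i, vec (P i p) (μ i)) ∧
      (∀ a ν, eval (vec p) (B a ν) = c * (u a * ∏ j, vec (Q j p) (ν j)))

/-- Weaker than `Regular`: `φ` is given by finitely many vectors of forms which do not all vanish at a `K`-point. -/
def RegK (I : Ideal (Poly K n)) (φ : RatPt I → RatPt I) : Prop :=
  ∃ (k : ℕ) (e : Fin k → ℕ) (A : Fin k → Fin (n + 1) → Poly K n), (∀ α i, (A α i).IsHomogeneous (e α)) ∧
    (∀ (p : RatPt I) (α : Fin k), ∃ c : K, ∀ i, eval (vec p) (A α i) = c * vec (φ p) i) ∧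
    ∀ p : RatPt I, ∃ α i, eval (vec p) (A α i) ≠ 0

/-- Zariski closed sets of `K`-points. -/
def ZClosed (I : Ideal (Poly K n)) (Z : Set (RatPt I)) : Prop :=
  ∃ S : Set (Poly K n), Z = {p | ∀ g ∈ S, ∀ c : K, c ≠ 0 → eval (c • vec p) g = 0}

/-- `φ` is continuous for the Zariski topology. -/
def ZCont (I : Ideal (Poly K n)) (φ : RatPt I → RatPt I) : Prop := ∀ Z, ZClosed I Z → ZClosed I (φ ⁻¹' Z)

/-- `C` is irreducible. -/
def ZIrred (I : Ideal (Poly K n)) (C : Set (RatPt I)) : Prop :=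
  C.Nonempty ∧ ∀ Z₁ Z₂, ZClosed I Z₁ → ZClosed I Z₂ → C ⊆ Z₁ ∪ Z₂ → C ⊆ Z₁ ∨ C ⊆ Z₂

/-- `φ` is given by forms with integral coefficients at the place `σ`, without zero modulo the maximal ideal at
the `K`-points. -/
def GoodMap (I : Ideal (Poly K n)) {L : Type} [NormedField L] (σ : K →+* L) (φ : RatPt I → RatPt I) : Prop :=
  ∃ (k : ℕ) (e : Fin k → ℕ) (A : Fin k → Fin (n + 1) → Poly K n), (∀ α i, (A α i).IsHomogeneous (e α)) ∧
    (∀ (p : RatPt I) (α : Fin k), ∃ c : K, ∀ i, eval (vec p) (A α i) = c * vec (φ p) i) ∧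
    (∀ α i b, ‖σ ((A α i).coeff b)‖ ≤ 1) ∧
    ∀ x : Fin (n + 1) → K, Pt I x → (∀ i, ‖σ (x i)‖ ≤ 1) → (∃ i, ‖σ (x i)‖ = 1) →
      ∃ α i, ‖σ (eval x (A α i))‖ = 1

/-- The point with the coordinates `w` over `K` is near the point with the coordinates `x` over `L` (as `MZ.Near`). -/
def Nr {L : Type} [NormedField L] (σ : K →+* L) (w : Fin (n + 1) → K) (x : Fin (n + 1) → L) (ε : ℝ) : Prop :=
  ∃ c : L, c ≠ 0 ∧ ∀ i, ‖c * σ (w i) - x i‖ < ε

end Defs

/-! ## The parts -/

/-- HUP.  Upper bound for the height of an image.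

Proof.  If `A α (p) ≠ 0` then `vec (φ p)` is proportional to `A α (p)`, and
`logHeight (A α (p)) ≤ e α * logHeight (vec p) + C α` (Mathlib: `logHeight_eval_le'`); `logHeight_smul_eq_logHeight`. -/
def S_HUP : Prop := ∀ (K : Type) [Field K] [NumberField K] (n : ℕ) (I : Ideal (Poly K n)) (φ : RatPt I → RatPt I)
  (_ : RegK I φ), ∃ c C : ℝ, 0 ≤ c ∧ ∀ p, logHeight (vec (φ p)) ≤ c * logHeight (vec p) + C

/-- HREL.  The relation of the heights given by the linear equivalence.

Proof.  `|logHeight (A (p)) - D * logHeight (vec p)| ≤ C`: upper bound Mathlib `logHeight_eval_le'`, lower bound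
`logHeight_eval_ge'` with `S_NULL` (proved: `Pool.Agent.H55.MZ.NULL.t`; see `proj` in `Pool/Agent/H55/MZ/Dens.lean` for the
same argument; reindex the pairs `(a, μ)` as needed; if `D = 0` increase nothing, `S_NULL` has no condition on the
degree).  And `logHeight (A (p)) = logHeight u + ∑ i, logHeight (vec (P i p))` by `logHeight_fun_mul_eq` and
`logHeight_fun_prod_eq`.  The same for `B` with the SAME `u` (the factor `c ≠ 0` does not change the height).
Subtract. -/
def S_HREL : Prop := ∀ (K : Type) [Field K] [NumberField K] (n : ℕ) (I : Ideal (Poly K n)) (_ : Homog I) (r s : ℕ)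
  (P : Fin r → RatPt I → RatPt I) (Q : Fin s → RatPt I → RatPt I) (_ : LinEquiv I P Q),
  ∃ C : ℝ, ∀ p, |∑ i, logHeight (vec (P i p)) - ∑ j, logHeight (vec (Q j p))| ≤ C

/-- FORB.  There are only finitely many points with finite orbit (abstract form; `h` is a height with the property of
Northcott).

Proof.  Let `y` have the finite orbit `O` under `Γ`.  `P i` and `Q j` permute `O`.  Sum the relation over `O`:
`|(r - s) ∑_{z ∈ O} h z| ≤ C |O|`, so `|∑_{z ∈ O} h z| ≤ C |O|` as `|r - s| ≥ 1`, and so there is `z ∈ O` with `h z ≤ C`.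
So `y` is in the orbit of one of the finitely many points `z` with `h z ≤ C` and finite orbit: a finite union of
finite sets. -/
def S_FORB : Prop := ∀ (Y : Type) (h : Y → ℝ) (_ : ∀ B : ℝ, {y | h y ≤ B}.Finite) (r s : ℕ) (_ : r ≠ s)
  (P : Fin r → Equiv.Perm Y) (Q : Fin s → Equiv.Perm Y) (C : ℝ)
  (_ : ∀ y, |∑ i, h (P i y) - ∑ j, h (Q j y)| ≤ C),
  {y : Y | (MulAction.orbit (Subgroup.closure (Set.range P ∪ Set.range Q)) y).Finite}.Finite

/-- ZCR.  Maps given by forms are continuous for the Zariski topology.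

Proof.  Let `Z` be given by `S`.  `eval (c • y) g = 0` for all `c ≠ 0` if and only if `eval y g_t = 0` for all the homogeneous
components `g_t` of `g` (`K` is infinite: `MZ.comp_zero`, `MZ.eval_smul_sum`).  So `φ p ∈ Z` iff
`eval (vec (φ p)) g_t = 0` for all `g ∈ S`, `t`, iff `eval (vec p) (bind₁ (A α) g_t) = 0` for all `g`, `t`, `α` (`MZ.eval_bind`; for
some `α` the vector `A α (p)` is a nonzero multiple of `vec (φ p)`), and `bind₁ (A α) g_t` is homogeneous
(`IsHomogeneous.aeval`). -/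
def S_ZCR : Prop := ∀ (K : Type) [Field K] [Infinite K] (n : ℕ) (I : Ideal (Poly K n)) (φ : RatPt I → RatPt I)
  (_ : RegK I φ), ZCont I φ

/-- REGC.  Composition.

Proof.  The vectors of forms `bind₁ (B β) (A α i)`, of degree `(degree of A α) * (degree of B β)`
(`IsHomogeneous.aeval`, `MZ.eval_bind`, `MZ.eval_smul_hom`). -/
def S_REGC : Prop := ∀ (K : Type) [Field K] (n : ℕ) (I : Ideal (Poly K n)) (φ ψ : RatPt I → RatPt I)
  (_ : RegK I φ) (_ : RegK I ψ), RegK I (φ ∘ ψ)

/-- COMP.  An infinite set `T` of `K`-points which is stable under a group `Γ` of homeomorphisms contains an infinite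
irreducible set which is stable under a subgroup of finite index.

Proof.  The Zariski topology on `RatPt I` (closed sets: `ZClosed`) is Noetherian: for instance it is induced by the map
to `PrimeSpectrum (Poly K n)` which sends `p` to the prime ideal `{g | ∀ c ≠ 0, eval (c • vec p) g = 0}` (prime as `K` is
infinite: it is the kernel of `g ↦ (polynomial c ↦ eval (c • vec p) g)`), and `PrimeSpectrum` of a Noetherian ring is a
Noetherian space (`Topology.IsInducing.noetherianSpace`).  So `T` with the induced topology is Noetherian and has finitely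
many irreducible components (`TopologicalSpace.NoetherianSpace.finite_irreducibleComponents`), which cover it; one of them,
`C`, is infinite.  `Γ` acts on `T` by homeomorphisms (`γ` and `γ⁻¹` are continuous and preserve `T`), so it permutes the
irreducible components; let `Γ'` be the stabilizer of `C`; the orbit of `C` is finite, so the index is finite. -/
def S_COMP : Prop := ∀ (K : Type) [Field K] [Infinite K] (n : ℕ) (I : Ideal (Poly K n))
  (Γ : Subgroup (Equiv.Perm (RatPt I))) (_ : ∀ γ ∈ Γ, ZCont I γ) (T : Set (RatPt I)) (_ : T.Infinite)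
  (_ : ∀ γ ∈ Γ, ∀ y ∈ T, γ y ∈ T),
  ∃ (C : Set (RatPt I)) (Γ' : Subgroup (Equiv.Perm (RatPt I))), C ⊆ T ∧ C.Infinite ∧ ZIrred I C ∧ Γ' ≤ Γ ∧
    Γ'.relIndex Γ ≠ 0 ∧ ∀ γ ∈ Γ', ∀ y ∈ C, γ y ∈ C

/-- ALGD.  `S_ALG` (proved in `Pool/Agent/H55/MZ/ALG.lean`) with a bound for the degree in the second variable which does
not depend on the forms `Ψ`.

Proof.  Let `P_s` be the space of the forms of degree `s`.  Let `E = ∑ M_l`, `c = dim P_E`.  As in the proof of `S_ALG`,
`P_s ⊆ J + ∑_{i ≤ s - E} m₀ ^ i m₁ ^ (s-E-i) P_E` for `s ≥ E`, so `P_s / (P_s ∩ J)` has dimension at most `(s - E + 1) c` for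
`s ≥ E` and at most `(s + 1) c` always when `s ≥ E`.  Let `D = c`.  For `a` large, `(a + 1) (D + 1)`
is larger than `(a + δ D + 1) c`, so the `(a + 1) (D + 1)` forms `m₀^(a-i) m₁^i Ψ₀^(D-j) Ψ₁^j`, `i ≤ a`, `j ≤ D`, of
degree `s = a + δ D`, are linearly dependent modulo `J`: `∑ c_ij m₀^(a-i) m₁^i Ψ₀^(D-j) Ψ₁^j ∈ J`.  Take
`F = ∑ c_ij X^i Y^j` and divide by `m₀(x)^a Ψ₀(x)^D`. -/
def S_ALGD : Prop := ∀ (K : Type) [Field K] (n : ℕ) (J : Ideal (Poly K n)) (_ : Homog J)
  (m : Fin 2 → Poly K n) (_ : ∀ i, (m i).IsHomogeneous 1) (_ : NoZero J m), ∃ D : ℕ,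
  ∀ (δ : ℕ) (Ψ : Fin 2 → Poly K n) (_ : ∀ i, (Ψ i).IsHomogeneous δ),
  ∃ F : Polynomial (Polynomial K), F ≠ 0 ∧ F.natDegree ≤ D ∧ ∀ x : Fin (n + 1) → K, (∀ g ∈ J, eval x g = 0) →
    eval x (m 0) ≠ 0 → eval x (Ψ 0) ≠ 0 →
    F.evalEval (eval x (m 1) / eval x (m 0)) (eval x (Ψ 1) / eval x (Ψ 0)) = 0

/-- IRRF.  On an irreducible set of points of a curve two functions satisfy an irreducible equation, of bounded degree
in the second variable (`S_ALGD` may be used as a hypothesis or imported).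

Proof.  `D` is from `S_ALGD`.  Let `p₀ ∈ C` with `m₀(p₀) ≠ 0`, `m'₀(ψ p₀) ≠ 0` and `A α (p₀) ≠ 0` (`A` are the forms for `ψ`).
Let `F` be from `S_ALGD` for `Ψ_i = bind₁ (A α) (m' i)`; it is not a unit, as it has the zero given by `p₀`.
`F = ∏ F_i` with `F_i` irreducible.  For a polynomial `G ∈ K[X][Y]` let
`Z_G = {p | m₀(p) = 0 or m'₀(ψ p) = 0 or G(m₁/m₀(p), m'₁/m'₀(ψ p)) = 0}`.
It is Zariski closed: let `a`, `b` be bounds for the degrees of `G` in the two variables, then it is the set where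
`m₀(p) m'₀(y) ∑ G_ij m₀(p)^(a-i) m₁(p)^i m'₀(y)^(b-j) m'₁(y)^j` is zero for `y = A β (p)`, for all `β`
(for each `p` some `A β (p)` is not zero and then proportional to `ψ p`; these are forms in `p`).  And
`C ⊆ {p | A α (p) = 0} ∪ ⋃ i, Z_(F_i)`, where `C ⊄ {p | A α (p) = 0}` by `p₀`.  As `C` is irreducible, `C ⊆ Z_(F_i)` for some `i`. -/
def S_IRRF : Prop := ∀ (K : Type) [Field K] [Infinite K] (n : ℕ) (J : Ideal (Poly K n)) (_ : Homog J)
  (m : Fin 2 → Poly K n) (_ : ∀ i, (m i).IsHomogeneous 1) (_ : NoZero J m), ∃ D : ℕ,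
  ∀ (I : Ideal (Poly K n)) (C : Set (RatPt I)) (_ : ZIrred I C) (_ : ∀ p ∈ C, ∀ g ∈ J, eval (vec p) g = 0)
  (ψ : RatPt I → RatPt I) (_ : RegK I ψ) (m' : Fin 2 → Poly K n) (_ : ∀ i, (m' i).IsHomogeneous 1)
  (_ : ∃ p ∈ C, eval (vec p) (m 0) ≠ 0 ∧ eval (vec (ψ p)) (m' 0) ≠ 0),
  ∃ F : Polynomial (Polynomial K), Irreducible F ∧ F.natDegree ≤ D ∧ ∀ p ∈ C, eval (vec p) (m 0) ≠ 0 →
    eval (vec (ψ p)) (m' 0) ≠ 0 →
    F.evalEval (eval (vec p) (m 1) / eval (vec p) (m 0)) (eval (vec (ψ p)) (m' 1) / eval (vec (ψ p)) (m' 0)) = 0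

/-- LIM.  On an irreducible plane curve the ratio of the heights of the coordinates has a limit (`deg_X F / deg_Y F`).

Proof.  In `Pool/Agent/H55/MZ/RATIO.lean` (namespace `Pool.Agent.H55.MZ.RATIO`) the lemma `half` shows: if the ratio
`h(v) / h(u)` tends to `r` along a filter then `n r ≤ m`, `m = deg_X F`, `n = deg_Y F = F.natDegree`; by symmetry
(`Bivariate.swap`, see the proof of `RATIO.t`) also `m ≤ n r` if `r > 0`.  Also `m, n ≥ 1` (`deg_ne`).  So `r = m / n`.  The
existence of the limit: by `tendsto_iff_ultrafilter` consider an ultrafilter.  The ratio `h(v) / h(u)` is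
bounded: the inequality `h3` in the proof of `half` for one large `b` gives `(b - n + 1) h(v) ≤ C + (I - 1) h(u)`.  So it
converges along the ultrafilter; by symmetry the limit is not zero.  The limit must be `m / n` for each ultrafilter. -/
def S_LIM : Prop := ∀ (K : Type) [Field K] [NumberField K] (F : Polynomial (Polynomial K)) (_ : Irreducible F),
  ∃ r : ℝ, ∀ (ι : Type) (l : Filter ι) [l.NeBot] (u v : ι → K) (_ : ∀ᶠ k in l, F.evalEval (u k) (v k) = 0)
  (_ : Tendsto (fun k => logHeight₁ (u k)) l atTop) (_ : Tendsto (fun k => logHeight₁ (v k)) l atTop),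
  1 ≤ r * F.natDegree ∧ Tendsto (fun k => logHeight₁ (v k) / logHeight₁ (u k)) l (𝓝 r)

/-- GDM.  A morphism has good reduction at almost all places.

Proof.  As `S_GOOD` (proved in `Pool/Agent/H55/MZ/GOOD.lean`).  `X_l ^ M_l - ∑ q (l, α, i) A α i ∈ I` with polynomials `q`
(not necessarily homogeneous).  Let `N ≠ 0` be such that `N a` is an algebraic integer for all coefficients `a` of
the `A α i` and of the `q`.  If `‖(N : L)‖ = 1` then all these coefficients have norm `≤ 1`.  If `x` is a point of norm one,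
`‖x_l‖ = 1`, then `1 = ‖x_l ^ M_l‖ ≤ max ‖q (l, α, i) (x)‖ ‖A α i (x)‖ ≤ max ‖A α i (x)‖ ≤ 1`. -/
def S_GDM : Prop := ∀ (K : Type) [Field K] [NumberField K] (n : ℕ) (I : Ideal (Poly K n)) (_ : Homog I)
  (φ : RatPt I → RatPt I) (_ : Regular I φ),
  ∃ N : ℕ, N ≠ 0 ∧ ∀ (L : Type) [NontriviallyNormedField L] [IsUltrametricDist L] (σ : K →+* L),
    ‖(N : L)‖ = 1 → GoodMap I σ φ

/-- REC.  Recurrence at a place of good reduction: small neighbourhoods are stable under subgroups of finite index.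

Proof (see also `Pool/Agent/H55/MZ/RED.lean`, where the same is done for one map).  Let `a = max ‖x i‖ > 0`,
`δ = min ε (a / 2)`, `ρ = δ / a < 1`.  For `p, q ∈ RatPt I` let `p ~ q` if there are `b, c ∈ K` with
`‖b • vec p‖ = ‖c • vec q‖ = 1` (maximum norms after `σ`) and `‖b • vec p - c • vec q‖ < ρ`.  This is an equivalence relation
with finitely many classes, as the unit ball of `L ^ (n+1)` is compact.  Each `g ∈ S` and each `g⁻¹` preserves `~`
(integral coefficients, no zero modulo the maximal ideal; if `y = b • vec p`, `y' = c • vec q` have norm one and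
`‖y - y'‖ < ρ` then `‖A α (y) - A α (y')‖ < ρ`, choose `α` with `‖A α (y)‖ = 1`, then also `‖A α (y')‖ = 1`, and these are
multiples of `vec (g p)`, `vec (g q)`).  So `closure S` acts on the finite set of the classes; let `Γ` be the kernel of the
action, `Γ = {γ ∈ closure S | ∀ p, γ p ~ p}`; it has finite index in `closure S`.
Let `γ ∈ Γ`, `‖c • vec p - x‖ < δ` for some `c ∈ L`, so `‖c • vec p‖ = a` (maximum norm).  There are `b, b' ∈ K` with
`‖b • vec p‖ = 1`, `‖b' • vec (γ p) - b • vec p‖ < ρ`.  Multiply by `c / b`, which has norm `a`: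
`‖(c b' / b) • vec (γ p) - c • vec p‖ < a ρ = δ`.  So `‖(c b' / b) • vec (γ p) - x‖ < δ`. -/
def S_REC : Prop := ∀ (K : Type) [Field K] (n : ℕ) (I : Ideal (Poly K n)) (_ : Homog I)
  (L : Type) [NontriviallyNormedField L] [IsUltrametricDist L] [ProperSpace L] (σ : K →+* L)
  (S : Set (Equiv.Perm (RatPt I))) (_ : ∀ g ∈ S, GoodMap I σ g ∧ GoodMap I σ g.symm)
  (x : Fin (n + 1) → L) (_ : x ≠ 0) (ε : ℝ) (_ : 0 < ε),
  ∃ (δ : ℝ) (Γ : Subgroup (Equiv.Perm (RatPt I))), 0 < δ ∧ δ ≤ ε ∧ Γ ≤ Subgroup.closure S ∧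
    Γ.relIndex (Subgroup.closure S) ≠ 0 ∧
    ∀ γ ∈ Γ, ∀ p : RatPt I, Nr σ (vec p) x δ → Nr σ (vec (γ p)) x δ

/-- ACT.  The local ideal at the image of a `K`-point is determined by the local ideal at the point.  (`g` is in the
local ideal at `p` iff `g` vanishes at all representatives of all `K`-points near `p`.)

Proof.  First: `φ` is continuous: for each `ε` there is `δ > 0` such that `Nr σ (vec w) (σ ∘ vec p) δ` implies
`Nr σ (vec (φ w)) (σ ∘ vec (φ p)) ε` (choose `α` with `A α (p) ≠ 0`; the polynomial map `A α` is continuous on `L ^ (n+1)`, so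
`A α (c • vec w) → A α (vec p)`, and these are multiples of `φ w`, `φ p`, nonzero for `w` near `p`; compare `near_map` in
`Pool/Agent/H55/MZ/Eqv.lean`).  The same for `φ⁻¹`.
Let `L(p)` be the ideal `{g | ∃ ε > 0, ∀ w, Nr σ (vec w) (σ ∘ vec p) ε → ∀ c ≠ 0, eval (c • vec w) g = 0}`.  Claim: `g ∈ L(φ p)` iff
for all homogeneous components `g_t` of `g` and all `α` we have `bind₁ (A α) g_t ∈ L(p)`.  `⇒`: if `w` is near `p`
then `φ w` is near `φ p`, so `g` vanishes at all multiples of `φ w`, so `g_t` does (`MZ.comp_zero`), also at the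
multiple `A α (w)`.  `⇐`: if `w'` is near `φ p` then `w = φ⁻¹ w'` is near `p`, so `g_t (A α (w)) = 0` for all `α`; some
`A α (w) ≠ 0` and so `g_t (w') = 0`, for all `t` (only finitely many `t` and `α` matter).  So `L(φ p)` is determined by
`L(p)`. -/
def S_ACT : Prop := ∀ (K : Type) [Field K] [Infinite K] (n : ℕ) (I : Ideal (Poly K n))
  (φ : Equiv.Perm (RatPt I)) (_ : RegK I φ) (_ : RegK I φ.symm) (L : Type) [NormedField L] (σ : K →+* L)
  (p q : RatPt I)
  (_ : ∀ g : Poly K n,
    (∃ ε : ℝ, 0 < ε ∧ ∀ w : RatPt I, Nr σ (vec w) (fun i => σ (vec p i)) ε → ∀ c : K, c ≠ 0 → eval (c • vec w) g = 0) ↔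
    (∃ ε : ℝ, 0 < ε ∧ ∀ w : RatPt I, Nr σ (vec w) (fun i => σ (vec q i)) ε → ∀ c : K, c ≠ 0 → eval (c • vec w) g = 0)),
  ∀ g : Poly K n,
    (∃ ε : ℝ, 0 < ε ∧ ∀ w : RatPt I, Nr σ (vec w) (fun i => σ (vec (φ p) i)) ε →
      ∀ c : K, c ≠ 0 → eval (c • vec w) g = 0) ↔
    (∃ ε : ℝ, 0 < ε ∧ ∀ w : RatPt I, Nr σ (vec w) (fun i => σ (vec (φ q) i)) ε →
      ∀ c : K, c ≠ 0 → eval (c • vec w) g = 0)

end Pool.Agent.H55.MG
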