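import Pool.Agent.H55.MG.Stm

/-!
# Project MG: stub ZCR (maps given by forms are Zariski continuous)
-/

set_option autoImplicit false

open MvPolynomial Filter Topology Height
open scoped LinearAlgebra.Projectivization

namespace Pool.Agent.H55.MG.ZCR

open Pool.Agent.H55.MZ (Poly NoZero Homog Pt Par eval_smul_hom eval_bind eval_smul_sum comp_zero)

theorem t : S_ZCR := by
  intro K _ _ n I φ hφ Z hZ
  obtain ⟨S, rfl⟩ := hZ
  obtain ⟨k, e, A, hA1, hA2, hA3⟩ := hφ
  refine ⟨{f | ∃ g ∈ S, ∃ (t : ℕ) (α : Fin k), f = bind₁ (A α) (homogeneousComponent t g)}, ?_⟩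
  ext p
  simp only [Set.mem_preimage]
  constructor
  · intro h f hf c hc
    obtain ⟨g, hg, t, α, rfl⟩ := hf
    have h1 : eval (vec (φ p)) (homogeneousComponent t g) = 0 := comp_zero (h g hg) t
    have hhom : (bind₁ (A α) (homogeneousComponent t g)).IsHomogeneous (e α * t) :=
      (homogeneousComponent_isHomogeneous t g).aeval _ (hA1 α)
    rw [eval_smul_hom hhom, eval_bind]
    obtain ⟨b, hb⟩ := hA2 p α
    have h2 : (fun i => eval (vec p) (A α i)) = b • vec (φ p) := by
      funext j
      rw [hb j]; rfl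
    rw [h2, eval_smul_hom (homogeneousComponent_isHomogeneous t g), h1, mul_zero, mul_zero]
  · intro h g hg c hc
    rw [eval_smul_sum]
    refine Finset.sum_eq_zero fun t _ => ?_
    obtain ⟨α, i, hα⟩ := hA3 p
    obtain ⟨b, hb⟩ := hA2 p α
    have hb0 : b ≠ 0 := by
      rintro rfl
      exact hα (by rw [hb i, zero_mul])
    have h1 := h _ ⟨g, hg, t, α, rfl⟩ 1 one_ne_zero
    rw [one_smul, eval_bind] at h1
    have h2 : (fun i => eval (vec p) (A α i)) = b • vec (φ p) := by
      funext j
      rw [hb j]; rfl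
    rw [h2, eval_smul_hom (homogeneousComponent_isHomogeneous t g)] at h1
    rw [(mul_eq_zero.1 h1).resolve_left (pow_ne_zero _ hb0), mul_zero]

end Pool.Agent.H55.MG.ZCR
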